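import Pool.Agent.NUP.MF.Fourier

/-!
# NUM3/CF (helper3): cosine form of the reference kernels (board/ABS O4)

`CF f N m`: for every `t`, `k ↦ N/(k sinh (πk/2)) - m k cos (kt)` is integrable on `(0, ∞)` and its
integral is `f t`.  `N` is the growth charge (`f t ~ N |t|`); constants are exact.

* `CF_sin`: `log ‖sin (θ + i t)‖`, `0 < θ < π`: `N = 1`, `m = cosh ((π/2 - θ) k) / (k sinh (πk/2))`;
* `CF_sinZ`: the same for `θ = n π / 64`, `n` integer, `64 ∤ n`;
* `GC n t = log |sinh t| - log |tanh (2^n t)|` (extended to `t = 0`), `CF_GC`: `N = 1`,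
  `m = (coth (πk/2) - tanh (πk/2^(n+2)))/k`.
-/

set_option autoImplicit false

open MeasureTheory Set NUMF

namespace Pool.Agent.NUM3

noncomputable section

/-- cosine form of a kernel with growth charge `N` -/
def CF (f : ℝ → ℝ) (N : ℝ) (m : ℝ → ℝ) : Prop :=
  ∀ t, IntegrableOn (fun k => N / (k * sk k) - m k * Real.cos (k * t)) (Ioi 0) ∧
    f t = ∫ k in Ioi (0:ℝ), (N / (k * sk k) - m k * Real.cos (k * t))

theorem CF.congr {f g : ℝ → ℝ} {N N' : ℝ} {m m' : ℝ → ℝ} (h : CF f N m) (hf : ∀ t, g t = f t)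
    (hN : N' = N) (hm : ∀ k, 0 < k → m' k = m k) : CF g N' m' := by
  intro t
  obtain ⟨i, e⟩ := h t
  subst hN
  have h1 : ∀ k ∈ Ioi (0:ℝ), N' / (k * sk k) - m k * Real.cos (k * t) =
      N' / (k * sk k) - m' k * Real.cos (k * t) := fun k hk => by rw [hm k hk]
  refine ⟨i.congr_fun h1 measurableSet_Ioi, ?_⟩
  rw [hf, e]
  exact setIntegral_congr_fun measurableSet_Ioi h1

theorem CF.zero : CF (fun _ => 0) 0 (fun _ => 0) := by
  intro t
  simp

theorem CF.add {f g : ℝ → ℝ} {N N' : ℝ} {m m' : ℝ → ℝ} (h : CF f N m) (h' : CF g N' m') :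
    CF (fun t => f t + g t) (N + N') (fun k => m k + m' k) := by
  intro t
  obtain ⟨i, e⟩ := h t
  obtain ⟨i', e'⟩ := h' t
  have h1 : ∀ k : ℝ, (N + N') / (k * sk k) - (m k + m' k) * Real.cos (k * t) =
      (N / (k * sk k) - m k * Real.cos (k * t)) + (N' / (k * sk k) - m' k * Real.cos (k * t)) :=
    fun k => by ring
  simp_rw [h1]
  exact ⟨i.add i', by rw [integral_add i i', ← e, ← e']⟩

theorem CF.smul {f : ℝ → ℝ} {N : ℝ} {m : ℝ → ℝ} (c : ℝ) (h : CF f N m) :
    CF (fun t => c * f t) (c * N) (fun k => c * m k) := by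
  intro t
  obtain ⟨i, e⟩ := h t
  have h1 : ∀ k : ℝ, c * N / (k * sk k) - c * m k * Real.cos (k * t) =
      c * (N / (k * sk k) - m k * Real.cos (k * t)) := fun k => by ring
  simp_rw [h1]
  exact ⟨i.const_mul c, by rw [integral_const_mul, ← e]⟩

theorem CF.neg {f : ℝ → ℝ} {N : ℝ} {m : ℝ → ℝ} (h : CF f N m) :
    CF (fun t => -f t) (-N) (fun k => -m k) :=
  (h.smul (-1)).congr (fun t => by ring) (by ring) fun k _ => by ring

theorem CF.sub {f g : ℝ → ℝ} {N N' : ℝ} {m m' : ℝ → ℝ} (h : CF f N m) (h' : CF g N' m') :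
    CF (fun t => f t - g t) (N - N') (fun k => m k - m' k) :=
  (h.add h'.neg).congr (fun t => by ring) (by ring) fun k _ => by ring

/-- finite sums -/
theorem CF.sum {α : Type*} (s : Finset α) {f : α → ℝ → ℝ} {N : α → ℝ} {m : α → ℝ → ℝ}
    (h : ∀ a ∈ s, CF (f a) (N a) (m a)) :
    CF (fun t => ∑ a ∈ s, f a t) (∑ a ∈ s, N a) (fun k => ∑ a ∈ s, m a k) := by
  classical
  induction s using Finset.induction_on with
  | empty => simpa using CF.zero
  | insert a s ha ih =>
    have h1 := h a (Finset.mem_insert_self a s)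
    have h2 := ih fun b hb => h b (Finset.mem_insert_of_mem hb)
    refine (h1.add h2).congr (fun t => ?_) ?_ fun k _ => ?_
    · rw [Finset.sum_insert ha]
    · rw [Finset.sum_insert ha]
    · rw [Finset.sum_insert ha]

/-- sums over lists -/
theorem CF.list {α : Type*} (L : List α) {f : α → ℝ → ℝ} {N : α → ℝ} {m : α → ℝ → ℝ}
    (h : ∀ a ∈ L, CF (f a) (N a) (m a)) :
    CF (fun t => (L.map fun a => f a t).sum) (L.map N).sum (fun k => (L.map fun a => m a k).sum) := by
  induction L with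
  | nil => simpa using CF.zero
  | cons a L ih =>
    have h1 := h a List.mem_cons_self
    have h2 := ih fun b hb => h b (List.mem_cons_of_mem _ hb)
    refine (h1.add h2).congr (fun t => ?_) ?_ fun k _ => ?_
    · simp
    · simp
    · simp

/-- the kernel of growth charge `0` is the cosine transform of `-m` -/
theorem CF.eval {f : ℝ → ℝ} {m : ℝ → ℝ} (h : CF f 0 m) :
    IntegrableOn m (Ioi 0) ∧ ∀ t, f t = -∫ k in Ioi (0:ℝ), m k * Real.cos (k * t) := by
  have h0 : IntegrableOn m (Ioi 0) := by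
    obtain ⟨i, -⟩ := h 0
    refine (i.neg).congr (Filter.Eventually.of_forall fun k => ?_)
    simp
  refine ⟨h0, fun t => ?_⟩
  rw [(h t).2, ← integral_neg]
  congr 1
  funext k
  ring

theorem CF.of_eval {f : ℝ → ℝ} {m : ℝ → ℝ} (i : IntegrableOn m (Ioi 0))
    (h : ∀ t, f t = ∫ k in Ioi (0:ℝ), m k * Real.cos (k * t)) : CF f 0 (fun k => -m k) := by
  intro t
  have h1 : ∀ k : ℝ, 0 / (k * sk k) - -m k * Real.cos (k * t) = m k * Real.cos (k * t) :=
    fun k => by ring
  simp_rw [h1]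
  refine ⟨?_, h t⟩
  refine Integrable.mul_bdd (c := 1) i ?_ (Filter.Eventually.of_forall fun k => ?_)
  · exact (Real.continuous_cos.comp (by fun_prop)).aestronglyMeasurable
  · exact Real.abs_cos_le_one _

/-! ### logarithms of sines -/

theorem norm_sin_sq (θ t : ℝ) : ‖Complex.sin (θ + t * Complex.I)‖ ^ 2 =
    (Real.cosh (2 * t) - Real.cos (2 * θ)) / 2 := by
  rw [Complex.sin_add_mul_I, ← Complex.ofReal_sin, ← Complex.ofReal_cos, ← Complex.ofReal_cosh,
    ← Complex.ofReal_sinh, ← Complex.normSq_eq_norm_sq]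
  have : (↑(Real.sin θ) * ↑(Real.cosh t) + ↑(Real.cos θ) * ↑(Real.sinh t) * Complex.I : ℂ) =
      ((Real.sin θ * Real.cosh t : ℝ) : ℂ) + ((Real.cos θ * Real.sinh t : ℝ) : ℂ) * Complex.I := by
    push_cast; ring
  rw [this, Complex.normSq_add_mul_I]
  have h1 := Real.cosh_two_mul t
  have h2 := Real.cos_two_mul θ
  have h3 := Real.cosh_sq t
  have h4 := Real.sin_sq_add_cos_sq θ
  rw [h1, h2]
  have h5 : Real.sin θ ^ 2 = 1 - Real.cos θ ^ 2 := by linarith
  rw [mul_pow, mul_pow, h5, h3]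
  ring

theorem log_norm_sin {θ : ℝ} (h0 : 0 < θ) (h1 : θ < Real.pi) (t : ℝ) :
    Real.log ‖Complex.sin (θ + t * Complex.I)‖ = (h t (Real.pi / 2 - θ) - Real.log 2) / 2 := by
  have hs := norm_sin_sq θ t
  have hc : Real.cos (2 * (Real.pi / 2 - θ)) = -Real.cos (2 * θ) := by
    rw [show 2 * (Real.pi / 2 - θ) = Real.pi - 2 * θ by ring, Real.cos_pi_sub]
  have hlt : Real.cos (2 * θ) < 1 := by
    have h2 := Real.cos_two_mul θ
    have h3 := Real.sin_pos_of_pos_of_lt_pi h0 h1
    have h4 := Real.sin_sq_add_cos_sq θ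
    nlinarith
  have hpos : 0 < Real.cosh (2 * t) - Real.cos (2 * θ) := by
    have := Real.one_le_cosh (2 * t)
    linarith
  unfold h
  rw [hc, ← sub_eq_add_neg, ← Real.log_div hpos.ne' two_ne_zero, ← hs, Real.log_pow]
  push_cast
  ring

/-- `log ‖sin (θ + i t)‖` -/
theorem CF_sin {θ : ℝ} (h0 : 0 < θ) (h1 : θ < Real.pi) :
    CF (fun t => Real.log ‖Complex.sin (θ + t * Complex.I)‖) 1
      (fun k => Real.cosh ((Real.pi / 2 - θ) * k) / (k * sk k)) := by
  intro t
  have ha : |Real.pi / 2 - θ| < Real.pi / 2 := by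
    rw [abs_lt]
    constructor <;> linarith
  obtain ⟨i, e⟩ := h_fourier ha t
  have h2 : ∀ k : ℝ, 1 / (k * sk k) - Real.cosh ((Real.pi / 2 - θ) * k) / (k * sk k) * Real.cos (k * t) =
      1 / 2 * (2 * (1 - Real.cosh ((Real.pi / 2 - θ) * k) * Real.cos (t * k)) / (k * sk k)) := by
    intro k
    rw [mul_comm t k]
    ring
  simp_rw [h2]
  refine ⟨i.const_mul _, ?_⟩
  rw [integral_const_mul, log_norm_sin h0 h1, e]
  ring

/-- transform of `log |sin (n π/64 + i t)|` times `k sinh (πk/2)` -/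
def cn (n : ℤ) (k : ℝ) : ℝ := Real.cosh ((32 - (n % 64 : ℤ)) * (Real.pi / 64 * k))

/-- `log ‖sin (n π/64 + i t)‖`, `64 ∤ n` -/
theorem CF_sinZ {n : ℤ} (hn : n % 64 ≠ 0) :
    CF (fun t => Real.log ‖Complex.sin (n * (Real.pi / 64 : ℝ) + t * Complex.I)‖) 1
      (fun k => cn n k / (k * sk k)) := by
  have hpi := Real.pi_pos
  set r : ℤ := n % 64 with hr
  have hr0 : 0 ≤ r := Int.emod_nonneg n (by norm_num)
  have hr1 : r < 64 := Int.emod_lt_of_pos n (by norm_num)
  have hrp : 0 < r := lt_of_le_of_ne hr0 (Ne.symm hn)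
  have h0 : (0:ℝ) < r * (Real.pi / 64) := by
    have : (0:ℝ) < r := by exact_mod_cast hrp
    positivity
  have h1 : (r:ℝ) * (Real.pi / 64) < Real.pi := by
    have : (r:ℝ) < 64 := by exact_mod_cast hr1
    nlinarith
  have hdiv : n = 64 * (n / 64) + r := by rw [hr]; exact (Int.mul_ediv_add_emod n 64).symm
  refine (CF_sin h0 h1).congr (fun t => ?_) rfl fun k _ => ?_
  · have e1 : (n : ℂ) * ((Real.pi / 64 : ℝ) : ℂ) + t * Complex.I =
        (((r * (Real.pi / 64) : ℝ) : ℂ) + t * Complex.I) + (n / 64 : ℤ) * (Real.pi : ℂ) := by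
      have e2 : (n : ℂ) = 64 * ((n / 64 : ℤ) : ℂ) + (r : ℂ) := by exact_mod_cast congrArg (fun x : ℤ => (x : ℂ)) hdiv
      rw [e2]
      push_cast
      ring
    have e4 : ∀ (x : ℂ) (j : ℤ), ‖Complex.sin (x + j * Real.pi)‖ = ‖Complex.sin x‖ := by
      intro x j
      have h := Complex.sin_antiperiodic.add_int_mul_eq (x := x) j
      rw [h]
      rcases Int.even_or_odd j with hj | hj
      · simp [Int.negOnePow_even j hj]
      · simp [Int.negOnePow_odd j hj]
    rw [e1, e4]
  · unfold cn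
    rw [← hr]
    congr 2
    ring

/-! ### logarithm of `sinh` without its core -/

/-- `log |sinh t| - log |tanh (2^n t)|`, extended to `t = 0` -/
def GC (n : ℕ) (t : ℝ) : ℝ := Real.log (Real.cosh (2 ^ n * t)) - n * Real.log 2 -
  ∑ j ∈ Finset.range n, Real.log (Real.cosh (2 ^ j * t))

theorem GC_succ (n : ℕ) (t : ℝ) : GC (n + 1) t = GC n t +
    (h (2 ^ n * t) (Real.pi / 4) - h (2 ^ n * t) 0) := by
  have h1 : h (2 ^ n * t) (Real.pi / 4) = Real.log (Real.cosh (2 ^ (n + 1) * t)) := by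
    unfold h
    rw [show 2 * (Real.pi / 4) = Real.pi / 2 by ring, Real.cos_pi_div_two, add_zero, pow_succ]
    congr 2
    ring
  have h2 : h (2 ^ n * t) 0 = Real.log 2 + 2 * Real.log (Real.cosh (2 ^ n * t)) := by
    unfold h
    have h3 := Real.cosh_pos (2 ^ n * t)
    have h4 : Real.cosh (2 * (2 ^ n * t)) + Real.cos (2 * 0) = 2 * Real.cosh (2 ^ n * t) ^ 2 := by
      rw [mul_zero, Real.cos_zero, Real.cosh_two_mul]
      have h5 := Real.cosh_sq (2 ^ n * t)
      linarith
    rw [h4, Real.log_mul two_ne_zero (by positivity), Real.log_pow]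
    push_cast
    ring
  rw [h1, h2]
  unfold GC
  rw [Finset.sum_range_succ]
  push_cast
  ring

theorem GC_eq (n : ℕ) {t : ℝ} (ht : t ≠ 0) :
    GC n t = Real.log |Real.sinh t| - Real.log |Real.tanh (2 ^ n * t)| := by
  have hs : ∀ n : ℕ, Real.sinh (2 ^ n * t) ≠ 0 := fun n => by
    rw [Ne, Real.sinh_eq_zero]
    positivity
  have key : ∀ n : ℕ, Real.log |Real.sinh (2 ^ n * t)| = Real.log |Real.sinh t| + n * Real.log 2 +
      ∑ j ∈ Finset.range n, Real.log (Real.cosh (2 ^ j * t)) := by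
    intro n
    induction n with
    | zero => simp
    | succ n ih =>
      have e : Real.sinh (2 ^ (n + 1) * t) = 2 * Real.sinh (2 ^ n * t) * Real.cosh (2 ^ n * t) := by
        rw [← Real.sinh_two_mul]
        congr 1
        ring
      rw [e, abs_mul, abs_mul, abs_two, abs_of_pos (Real.cosh_pos _), Real.log_mul, Real.log_mul,
        ih, Finset.sum_range_succ]
      · push_cast
        ring
      · exact two_ne_zero
      · exact abs_ne_zero.2 (hs n)
      · exact mul_ne_zero two_ne_zero (abs_ne_zero.2 (hs n))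
      · exact (Real.cosh_pos _).ne'
  have hc := Real.cosh_pos (2 ^ n * t)
  rw [Real.tanh_eq_sinh_div_cosh, abs_div, abs_of_pos hc, Real.log_div (abs_ne_zero.2 (hs n)) hc.ne',
    key n]
  unfold GC
  ring

/-- transform of `GC n` -/
def gc (n : ℕ) (k : ℝ) : ℝ :=
  (Real.cosh (Real.pi / 2 * k) / Real.sinh (Real.pi / 2 * k) - Real.tanh (Real.pi / 2 ^ (n + 2) * k)) / k

theorem tanh_two (x : ℝ) : Real.tanh (2 * x) - Real.tanh x = Real.tanh x / Real.cosh (2 * x) := by
  have h1 := (Real.cosh_pos x).ne'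
  have h2 := (Real.cosh_pos (2 * x)).ne'
  rw [Real.tanh_eq_sinh_div_cosh, Real.tanh_eq_sinh_div_cosh, Real.sinh_two_mul]
  have h3 := Real.cosh_sq x
  have h4 := Real.cosh_two_mul x
  rw [div_sub_div _ _ h2 h1, div_div, div_eq_div_iff (mul_ne_zero h2 h1) (mul_ne_zero h1 h2), h4, h3]
  have h5 : Real.cosh x ^ 3 = Real.cosh x * (Real.sinh x ^ 2 + 1) := by rw [← h3]; ring
  linear_combination (2 * Real.sinh x * Real.cosh x * (2 * Real.sinh x ^ 2 + 1)) * h3

theorem inv_sinh_two {y : ℝ} (hy : 0 < y) :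
    1 / Real.sinh (2 * y) = Real.cosh (2 * y) / Real.sinh (2 * y) - Real.tanh y := by
  have h1 := (Real.sinh_pos_iff.2 hy).ne'
  have h2 := (Real.cosh_pos y).ne'
  have h3 := Real.cosh_sq y
  rw [Real.tanh_eq_sinh_div_cosh, Real.sinh_two_mul, Real.cosh_two_mul]
  field_simp
  nlinarith

theorem one_sub_cosh_div {y : ℝ} (hy : 0 < y) :
    2 * (1 - Real.cosh (2 * y)) / Real.sinh (4 * y) = -(Real.tanh (2 * y) - Real.tanh y) := by
  rw [tanh_two]
  have h1 := (Real.sinh_pos_iff.2 hy).ne'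
  have h2 := (Real.cosh_pos y).ne'
  have h3 := Real.cosh_sq y
  have h5 : Real.sinh (4 * y) = 2 * (2 * Real.sinh y * Real.cosh y) * Real.cosh (2 * y) := by
    rw [← Real.sinh_two_mul, show 4 * y = 2 * (2 * y) by ring, Real.sinh_two_mul (2 * y)]
  have h4 := (Real.cosh_pos (2 * y)).ne'
  have h6 : 1 - Real.cosh (2 * y) = -2 * Real.sinh y ^ 2 := by
    rw [Real.cosh_two_mul, h3]; ring
  rw [h5, h6, Real.tanh_eq_sinh_div_cosh]
  field_simp

theorem CF_GC (n : ℕ) : CF (GC n) 1 (gc n) := by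
  have hpi := Real.pi_pos
  induction n with
  | zero =>
    have h1 : CF (fun t => Real.log ‖Complex.sin ((Real.pi / 2 : ℝ) + t * Complex.I)‖) 1
      (fun k => Real.cosh ((Real.pi / 2 - Real.pi / 2) * k) / (k * sk k)) :=
      CF_sin (by positivity) (by linarith)
    refine h1.congr (fun t => ?_) rfl fun k hk => ?_
    · rw [log_norm_sin (by positivity) (by linarith), sub_self]
      unfold GC h
      have h4 : Real.cosh (2 * t) + Real.cos (2 * 0) = 2 * Real.cosh t ^ 2 := by
        rw [mul_zero, Real.cos_zero, Real.cosh_two_mul]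
        have h5 := Real.cosh_sq t
        linarith
      rw [h4, Real.log_mul two_ne_zero (by have := Real.cosh_pos t; positivity), Real.log_pow]
      simp
    · unfold gc sk
      have hx : 0 < Real.pi / 4 * k := by positivity
      have e1 : Real.pi / 2 * k = 2 * (Real.pi / 4 * k) := by ring
      have e2 : Real.pi / 2 ^ (0 + 2) * k = Real.pi / 4 * k := by norm_num
      rw [e2, e1, sub_self, zero_mul, Real.cosh_zero, ← inv_sinh_two hx, div_div, mul_comm k]
  | succ n ih =>
    intro t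
    set c : ℝ := 2 ^ n with hc
    have hc0 : 0 < c := by positivity
    obtain ⟨i1, e1⟩ := ih t
    obtain ⟨i2, e2⟩ := h_sub_fourier (a := Real.pi / 4) (b := 0)
      (by rw [abs_of_pos (by positivity)]; linarith) (by rw [abs_zero]; positivity) (c * t)
    -- the integrand after the substitution `k = k' / c`
    set F : ℝ → ℝ := fun k => 2 * Real.cos (c * t * k) *
      (Real.cosh (0 * k) - Real.cosh (Real.pi / 4 * k)) / (k * sk k) with hF
    have hF1 : ∀ k, 0 < k → F k = -((Real.tanh (Real.pi / 4 * k) - Real.tanh (Real.pi / 8 * k)) / k *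
        Real.cos (c * t * k)) := by
      intro k hk
      have hx2 : 0 < Real.pi / 8 * k := by positivity
      have t1 := one_sub_cosh_div hx2
      rw [show 2 * (Real.pi / 8 * k) = Real.pi / 4 * k by ring,
        show 4 * (Real.pi / 8 * k) = Real.pi / 2 * k by ring] at t1
      rw [hF]
      simp only [zero_mul, Real.cosh_zero]
      unfold sk
      have e : 2 * Real.cos (c * t * k) * (1 - Real.cosh (Real.pi / 4 * k)) /
          (k * Real.sinh (Real.pi / 2 * k)) = (2 * (1 - Real.cosh (Real.pi / 4 * k)) /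
          Real.sinh (Real.pi / 2 * k)) / k * Real.cos (c * t * k) := by
        rw [div_div, mul_comm (Real.sinh (Real.pi / 2 * k)) k]
        ring
      rw [e, t1]
      ring
    have hG : ∀ k, 0 < k → c⁻¹ * F (c⁻¹ * k) =
        -((Real.tanh (Real.pi / 2 ^ (n + 2) * k) - Real.tanh (Real.pi / 2 ^ (n + 3) * k)) / k *
          Real.cos (k * t)) := by
      intro k hk
      rw [hF1 _ (by positivity)]
      have a1 : Real.pi / 4 * (c⁻¹ * k) = Real.pi / 2 ^ (n + 2) * k := by
        rw [pow_add, ← hc]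
        field_simp
        norm_num
      have a2 : Real.pi / 8 * (c⁻¹ * k) = Real.pi / 2 ^ (n + 3) * k := by
        rw [pow_add, ← hc]
        field_simp
        norm_num
      have a3 : c * t * (c⁻¹ * k) = k * t := by field_simp
      rw [a1, a2, a3]
      field_simp
    have j1 : IntegrableOn (fun k => F (c⁻¹ * k)) (Ioi 0) :=
      (integrableOn_Ioi_comp_mul_left_iff F 0 (by positivity)).2 (by rw [mul_zero]; exact i2)
    have j2 : IntegrableOn (fun k => -((Real.tanh (Real.pi / 2 ^ (n + 2) * k) -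
        Real.tanh (Real.pi / 2 ^ (n + 3) * k)) / k * Real.cos (k * t))) (Ioi 0) :=
      IntegrableOn.congr_fun (j1.const_mul c⁻¹) (fun k hk => hG k hk) measurableSet_Ioi
    have j3 : ∫ k in Ioi (0:ℝ), -((Real.tanh (Real.pi / 2 ^ (n + 2) * k) -
        Real.tanh (Real.pi / 2 ^ (n + 3) * k)) / k * Real.cos (k * t)) = ∫ k in Ioi (0:ℝ), F k := by
      rw [← setIntegral_congr_fun measurableSet_Ioi hG, integral_const_mul,
        integral_comp_mul_left_Ioi F 0 (by positivity), mul_zero, smul_eq_mul, inv_inv, ← mul_assoc,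
        inv_mul_cancel₀ hc0.ne', one_mul]
    have hsum : ∀ k ∈ Ioi (0:ℝ), (1 / (k * sk k) - gc n k * Real.cos (k * t)) +
        -((Real.tanh (Real.pi / 2 ^ (n + 2) * k) - Real.tanh (Real.pi / 2 ^ (n + 3) * k)) / k *
          Real.cos (k * t)) = 1 / (k * sk k) - gc (n + 1) k * Real.cos (k * t) := by
      intro k _
      unfold gc
      rw [show n + 1 + 2 = n + 3 by ring]
      ring
    refine ⟨IntegrableOn.congr_fun (i1.add j2) hsum measurableSet_Ioi, ?_⟩
    rw [← setIntegral_congr_fun measurableSet_Ioi hsum, integral_add i1 j2, ← e1, j3, GC_succ, ← e2]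

end

end Pool.Agent.NUM3
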