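import Pool.Agent.NUO.DispO
import Pool.Agent.NUO.MHat
import Pool.Agent.NUM3.CF

/-!
# NUM3/DrF (helper3): cosine form of the direct energies (board/ABS O4)

`NUDispO.Dr 8 (9/4) (1/4) σ κ κ'` (reference positions, all log cores of scale `2 ^ 8` removed) has the
cosine form with growth charge `DrN σ κ κ'` and transform `-2 (direct σ κ κ' - cor σ κ κ' * core) / (k sinh (π k / 2))`
in the variable `z = π k / 32`; `direct`, `cor` are the bilinear extensions to the kind `Sv` of
helper9's `bb`, `xb` and of the numbers of cores.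
-/

set_option autoImplicit false

open MeasureTheory Set NUDispO NUO NUSB
open NUMF (sk)

namespace Pool.Agent.NUM3

noncomputable section

/-- transform of `lam 8 (j l / 4)`, in units `1 / (k sinh (π k / 2))` -/
def ca (j : ℤ) (z : ℝ) : ℝ := ch (16 - j % 32).natAbs z - if j % 32 = 0 then core z else 0

theorem sk_eq (k : ℝ) : sk k = Real.sinh (16 * NUMH.zk k) := by
  unfold sk NUMH.zk
  congr 1
  ring

theorem GK_real (t : ℝ) : GK 8 (t : ℂ) = GC 8 t := by
  have h : ∀ j : ℕ, ‖Complex.cosh ((2 : ℂ) ^ j * (t : ℂ))‖ = Real.cosh (2 ^ j * t) := by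
    intro j
    rw [show (2 : ℂ) ^ j * (t : ℂ) = ((2 ^ j * t : ℝ) : ℂ) by push_cast; rfl, ← Complex.ofReal_cosh,
      Complex.norm_real, Real.norm_of_nonneg (Real.cosh_pos _).le]
  unfold GK GC
  simp_rw [h]
  push_cast
  ring

/-- `lam` at the points `j l / 4` -/
theorem lam_CF (j : ℤ) : CF (fun t => lam 8 (j * (NUP1.l / 4)) t) 1
    (fun k => ca j (NUMH.zk k) / (k * sk k)) := by
  have hpi := Real.pi_pos
  have hl : (j : ℝ) * (NUP1.l / 4) = j * (Real.pi / 32) := by unfold NUP1.l; ring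
  have hdiv : j = 32 * (j / 32) + j % 32 := (Int.mul_ediv_add_emod j 32).symm
  by_cases h : j % 32 = 0
  · have hj : (j : ℝ) * (Real.pi / 32) = ((j / 32 : ℤ) : ℝ) * Real.pi := by
      have h1 : (j : ℝ) = 32 * ((j / 32 : ℤ) : ℝ) := by
        rw [h, add_zero] at hdiv
        exact_mod_cast congrArg (fun x : ℤ => (x : ℝ)) hdiv
      rw [h1]; ring
    have hs : Real.sin ((j : ℝ) * (NUP1.l / 4)) = 0 := by
      rw [hl, hj]; exact Real.sin_int_mul_pi _
    refine (CF_GC 8).congr (fun t => ?_) rfl fun k hk => ?_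
    · rw [lam_core hs, GK_real]
    · unfold ca gc
      rw [if_pos h, h, sk_eq]
      have e1 : Real.pi / 2 * k = 16 * NUMH.zk k := by unfold NUMH.zk; ring
      have e2 : Real.pi / 2 ^ (8 + 2) * k = NUMH.zk k / 32 := by unfold NUMH.zk; norm_num; ring
      rw [e1, e2]
      have h2 : Real.sinh (16 * NUMH.zk k) ≠ 0 :=
        (Real.sinh_pos_iff.2 (by have := NUMH.zk_pos hk; positivity)).ne'
      unfold core
      have e3 : ch (16 - (0:ℤ)).natAbs (NUMH.zk k) = Real.cosh (16 * NUMH.zk k) := by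
        unfold ch; norm_num
      rw [e3]
      field_simp
  · have hr0 : 0 ≤ j % 32 := Int.emod_nonneg j (by norm_num)
    have hr1 : j % 32 < 32 := Int.emod_lt_of_pos j (by norm_num)
    have h64 : (2 * j) % 64 = 2 * (j % 32) := by omega
    have hs : Real.sin ((j : ℝ) * (NUP1.l / 4)) ≠ 0 := by
      intro h0
      rw [hl, Real.sin_eq_zero_iff] at h0
      obtain ⟨n, hn⟩ := h0
      have h1 : (32 : ℝ) * n = j := by
        have := mul_right_cancel₀ hpi.ne' (show (32 * (n : ℝ)) * Real.pi = j * Real.pi by linarith)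
        exact this
      have h2 : 32 * n = j := by exact_mod_cast h1
      omega
    refine (CF_sinZ (n := 2 * j) (by omega)).congr (fun t => ?_) rfl fun k hk => ?_
    · rw [lam_reg hs, hl]
      congr 3
      push_cast
      ring
    · unfold ca cn
      rw [if_neg h, sub_zero, h64]
      congr 1
      unfold ch
      have e : (((16 - j % 32).natAbs : ℕ) : ℝ) = |((16 - j % 32 : ℤ) : ℝ)| := by
        rw [Nat.cast_natAbs, Int.cast_abs]
      rw [e, ← Real.cosh_abs, abs_mul, abs_abs, ← abs_mul, Real.cosh_abs]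
      congr 1
      unfold NUMH.zk
      push_cast
      ring

/-- transform of `Lam 8 L (q / 4)`, in units `1 / (k sinh (π k / 2))` -/
def La (L : List (ℤ × ℤ)) (q : ℤ) (z : ℝ) : ℝ :=
  (L.map fun p => (p.2 : ℝ) * ca (q + 4 * p.1) z).sum

/-- growth charge of `Lam` -/
def Na (L : List (ℤ × ℤ)) : ℤ := (L.map fun p => p.2).sum

theorem Lam_CF (L : List (ℤ × ℤ)) (q : ℤ) : CF (fun t => Lam 8 L (q / 4) t) (Na L)
    (fun k => La L q (NUMH.zk k) / (k * sk k)) := by
  have h := CF.list L (f := fun p t => (p.2 : ℝ) * lam 8 (((q + 4 * p.1 : ℤ) : ℝ) * (NUP1.l / 4)) t)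
    (N := fun p => (p.2 : ℝ) * 1) (m := fun p k => (p.2 : ℝ) *
      (ca (q + 4 * p.1) (NUMH.zk k) / (k * sk k))) fun p _ => (lam_CF _).smul _
  refine h.congr (fun t => ?_) ?_ fun k _ => ?_
  · unfold Lam
    congr 1
    refine List.map_congr_left fun p _ => ?_
    congr 2
    push_cast
    ring
  · unfold Na
    induction L with
    | nil => simp
    | cons p L ih =>
      have := ih (CF.list L fun p _ => (lam_CF _).smul _)
      simp only [List.map_cons, List.sum_cons, Int.cast_add, this, mul_one]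
  · unfold La
    rw [div_eq_mul_inv, ← List.sum_map_mul_right]
    congr 1
    refine List.map_congr_left fun p _ => ?_
    ring

/-- reference lines in units `l / 4` -/
def cq : Con → ℤ
  | .L => -5
  | .T => -2
  | .S => -5
  | .V => 3

theorem df_cq (a b : Con) : df (9 / 4) (1 / 4) a b = ((cq a - cq b : ℤ) : ℝ) / 4 := by
  rcases a <;> rcases b <;> norm_num [df, Con.cp, cq]

/-- growth charge of `-Dr` -/
def DrN (σ : Bool) (κ κ' : Kind) : ℤ := ((cl κ).map fun a => ((cl κ').map fun b => Na (LL σ a b)).sum).sum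

/-- transform of `-Dr`, in units `1 / (k sinh (π k / 2))` -/
def DrM (σ : Bool) (κ κ' : Kind) (z : ℝ) : ℝ :=
  ((cl κ).map fun a => ((cl κ').map fun b => La (LL σ a b) (cq a - cq b) z).sum).sum

theorem sum_cast {α : Type*} (L : List α) (f : α → ℤ) :
    (((L.map f).sum : ℤ) : ℝ) = (L.map fun a => (f a : ℝ)).sum := by
  induction L with
  | nil => simp
  | cons a L ih => simp [ih]

theorem Dr_CF0 (σ : Bool) (κ κ' : Kind) : CF (fun t => Dr 8 (9 / 4) (1 / 4) σ κ κ' t)
    (-(DrN σ κ κ' : ℝ)) (fun k => -(DrM σ κ κ' (NUMH.zk k) / (k * sk k))) := by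
  have h := (CF.list (cl κ) (f := fun a t => ((cl κ').map fun b =>
      Lam 8 (LL σ a b) (((cq a - cq b : ℤ) : ℝ) / 4) t).sum) (N := fun a => ((cl κ').map fun b =>
      ((Na (LL σ a b) : ℤ) : ℝ)).sum) (m := fun a k => ((cl κ').map fun b =>
      La (LL σ a b) (cq a - cq b) (NUMH.zk k) / (k * sk k)).sum) fun a _ =>
      CF.list (cl κ') fun b _ => Lam_CF _ _).neg
  refine h.congr (fun t => ?_) ?_ fun k _ => ?_
  · unfold Dr
    congr 2
    refine List.map_congr_left fun a _ => ?_
    congr 1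
    refine List.map_congr_left fun b _ => ?_
    rw [df_cq]
  · unfold DrN
    rw [sum_cast]
    congr 2
    refine List.map_congr_left fun a _ => ?_
    rw [sum_cast]
  · unfold DrM
    congr 1
    rw [div_eq_mul_inv, ← List.sum_map_mul_right]
    congr 1
    refine List.map_congr_left fun a _ => ?_
    rw [← List.sum_map_mul_right]
    congr 1

/-! ### comparison with `bb`, `xb` -/

theorem ch_zero (z : ℝ) : ch 0 z = 1 := by
  unfold ch; simp

open NUMH in
/-- a kind as a combination of base kinds -/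
def dec : Kind → List (B × ℝ)
  | .L => [(.L, 1)]
  | .St => [(.T, 1)]
  | .S => [(.S, 1)]
  | .Sv => [(.S, 1 / 2), (.V, 1 / 2)]
  | .Svv => [(.V, 1)]

open NUMH in
/-- bilinear extension -/
def ext2 (f : B → B → ℝ) (κ κ' : Kind) : ℝ :=
  ((dec κ).map fun a => ((dec κ').map fun b => a.2 * b.2 * f a.1 b.1).sum).sum

open NUMH in
/-- half the number of vanishing sines, same species -/
def cbs : B → B → ℝ
  | .L, .L => 1
  | .T, .T => 1
  | .S, .S => 1
  | .S, .V => -1
  | .V, .S => -1
  | .V, .V => 1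
  | .L, .S => 1 / 2
  | .S, .L => 1 / 2
  | .L, .V => 1 / 2
  | .V, .L => 1 / 2
  | _, _ => 0

open NUMH in
/-- half the number of vanishing sines, opposite species -/
def cbc : B → B → ℝ
  | .L, .V => 1
  | .V, .L => 1
  | .S, .V => 1
  | .V, .S => 1
  | .V, .V => 2
  | _, _ => 0

open NUMH in
theorem DrM_same (κ κ' : Kind) (z : ℝ) :
    DrM true κ κ' z = 2 * ext2 (fun a b => bb a b z - cbs a b * core z) κ κ' := by
  rcases κ <;> rcases κ' <;>
    simp [DrM, ext2, dec, cl, LL, eqs, Con.own, Con.ty, NUDispO.Ls, NUDispO.Lp, NUDispO.Lc, La, ca,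
      cq, bb, cbs, bLT, bLS, bLV, bTS, bTV, bSS, bSV, bVV] <;> ring

open NUMH in
theorem DrM_opp (κ κ' : Kind) (z : ℝ) :
    DrM false κ κ' z = 2 * ext2 (fun a b => xb a b z - cbc a b * core z) κ κ' := by
  rcases κ <;> rcases κ' <;>
    simp [DrM, ext2, dec, cl, LL, eqs, Con.own, Con.ty, NUDispO.Ls, NUDispO.Lp, NUDispO.Lc, La, ca,
      cq, xb, cbc, xLT, xLS, xLV, xTS, xTV, xSV, ch_zero] <;> ring

/-- charge (own minus other species) -/
def qc : Kind → ℤ
  | .L => 1
  | .St => 2
  | .S => 2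
  | .Sv => 1
  | .Svv => 0

theorem DrN_same : ∀ κ κ', DrN true κ κ' = 2 * (qc κ * qc κ') := by decide +kernel

theorem DrN_opp : ∀ κ κ', DrN false κ κ' = -(2 * (qc κ * qc κ')) := by decide +kernel

/-- sign of a pair: `1` same species, `-1` opposite -/
def sgn (σ : Bool) : ℝ := if σ then 1 else -1

open NUMH in
/-- direct energy over `P`, cores removed -/
def dk (σ : Bool) (a b : B) (z : ℝ) : ℝ :=
  if σ then bb a b z - cbs a b * core z else xb a b z - cbc a b * core z

/-- **cosine form of the direct energies** -/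
theorem Dr_CF (σ : Bool) (κ κ' : Kind) : CF (fun t => Dr 8 (9 / 4) (1 / 4) σ κ κ' t)
    (-(sgn σ * (2 * (qc κ * qc κ')))) (fun k => -(2 / (k * sk k) *
      ext2 (fun a b => dk σ a b (NUMH.zk k)) κ κ')) := by
  refine (Dr_CF0 σ κ κ').congr (fun _ => rfl) ?_ fun k _ => ?_
  · rcases σ
    · rw [DrN_opp]; unfold sgn; push_cast; simp
    · rw [DrN_same]; unfold sgn; push_cast; simp
  · rcases σ
    · rw [DrM_opp]; simp only [dk, Bool.false_eq_true, if_false]; ring
    · rw [DrM_same]; simp only [dk, if_true]; ring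

end

end Pool.Agent.NUM3
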