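import Pool.Agent.NUC37.Pars
import Pool.Agent.NUM3.DrF

/-!
# NUM3/En (helper3): the response energies of a pair in cosine form (board/ABS O4)

* `l0_eq`: `log g 0 = ∫ ((1/π) Lh - 2/(k sk k))`;
* `EV_CF`, `EU_CF`: cosine forms of `∫∫ f₁ V f₂` (charge 0) and `∫∫ τ₁ (- log g) τ₂` (charge
  `2 (∫ τ₁) (∫ τ₂)`), `U_c = - log g` with its exact constant.
-/

set_option autoImplicit false

open MeasureTheory Set NUC37
open NUMF (sk Uh Lh V ck1)

namespace Pool.Agent.NUM3

noncomputable section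

theorem l0_eq : IntegrableOn (fun k => 1 / Real.pi * Lh k - 2 / (k * sk k)) (Ioi 0) ∧
    ∫ k in Ioi (0:ℝ), (1 / Real.pi * Lh k - 2 / (k * sk k)) = Real.log (NUMF.g 0) := by
  have hpi := Real.pi_pos
  have hl := NUMF.l_pos
  have ha : |NUMF.l| < Real.pi / 2 := by
    rw [abs_of_pos hl]; unfold NUMF.l; linarith
  obtain ⟨i, e⟩ := NUMF.h_fourier ha 0
  have h1 : ∀ k : ℝ, 1 / Real.pi * Lh k - 2 / (k * sk k) =
      -2 * (2 * (1 - Real.cosh (NUMF.l * k) * Real.cos (0 * k)) / (k * sk k)) := by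
    intro k
    unfold Lh ck1
    rw [zero_mul, Real.cos_zero]
    field_simp
    ring
  simp_rw [h1]
  refine ⟨i.const_mul _, ?_⟩
  rw [integral_const_mul]
  have h2 : ∫ k in Ioi (0:ℝ), 2 * (1 - Real.cosh (NUMF.l * k) * Real.cos (0 * k)) / (k * sk k) =
      NUMF.h 0 NUMF.l - Real.log 2 := by rw [e]; ring
  have hr := NUMF.r_pos
  rw [h2, NUMF.h1, NUE.g_zero, mul_zero, Real.cosh_zero, Real.log_div (by norm_num) (by positivity),
    Real.log_pow, show (4:ℝ) = 2 ^ 2 by norm_num, Real.log_pow]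
  push_cast
  ring

/-- `∫∫ f₁ (x - s) V (s - s') f₂ (s' - y)` -/
def EV (f₁ f₂ : ℝ → ℝ) (x y : ℝ) : ℝ := ∫ s, f₁ (x - s) * ∫ s', V (s - s') * f₂ (s' - y)

/-- `∫∫ τ₁ (x - s) (- log g (s - s')) τ₂ (s' - y)` -/
def EU (τ₁ τ₂ : ℝ → ℝ) (x y : ℝ) : ℝ :=
  ∫ s, τ₁ (x - s) * ∫ s', -Real.log (NUMF.g (s - s')) * τ₂ (s' - y)

theorem lgm_nonneg (t : ℝ) : 0 ≤ NUE.lgm t := by
  rw [NUE.lgm_eq]
  refine mul_nonneg (by have := Real.pi_pos; positivity)
    (setIntegral_nonneg measurableSet_Ioi fun k hk => ?_)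
  exact mul_nonneg (by linarith [Real.cos_le_one (k * t)]) (NUMF.Lh_pos (ne_of_gt hk)).le

/-- joint integrability of the long range energy -/
theorem joint_lg {τ₁ τ₂ : ℝ → ℝ} (j₁ : Integrable τ₁) (j₂ : Integrable τ₂)
    (i₁ : Integrable fun t => (1 + |t|) * τ₁ t) (i₂ : Integrable fun t => (1 + |t|) * τ₂ t)
    (x y : ℝ) : Integrable (fun z : ℝ × ℝ => τ₁ (x - z.1) * (NUE.lgm (z.1 - z.2) * τ₂ (z.2 - y)))
      (volume.prod volume) := by
  have hmaj := (i₁.comp_sub_left x).mul_prod (i₂.comp_sub_right y)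
  refine ((hmaj.norm).const_mul (2 * (1 + |x - y|))).mono' ?_ (ae_of_all _ fun z => ?_)
  · have h1 := (j₁.comp_sub_left x).aestronglyMeasurable.comp_fst (ν := (volume : Measure ℝ))
    have h3 := (j₂.comp_sub_right y).aestronglyMeasurable.comp_snd (μ := (volume : Measure ℝ))
    have h2 : Continuous fun z : ℝ × ℝ => NUE.lgm (z.1 - z.2) := by
      have := NUE.lgm_cont
      fun_prop
    exact h1.mul (h2.aestronglyMeasurable.mul h3)
  · have h0 := lgm_nonneg (z.1 - z.2)
    have h1 := NUE.lgm_le (z.1 - z.2)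
    have h2 : |z.1 - z.2| ≤ |x - z.1| + |x - y| + |z.2 - y| := by
      have a1 := abs_sub_le z.1 x z.2
      have a2 := abs_sub_le x y z.2
      rw [abs_sub_comm z.1 x] at a1
      rw [abs_sub_comm y z.2] at a2
      linarith
    have a := abs_nonneg (x - y)
    have b := abs_nonneg (x - z.1)
    have c := abs_nonneg (z.2 - y)
    have h3 : NUE.lgm (z.1 - z.2) ≤ 2 * (1 + |x - y|) * ((1 + |x - z.1|) * (1 + |z.2 - y|)) := by
      refine h1.trans ?_
      nlinarith [mul_nonneg a b, mul_nonneg a c, mul_nonneg b c, mul_nonneg a (mul_nonneg b c)]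
    rw [norm_mul, norm_mul, Real.norm_eq_abs, Real.norm_eq_abs, Real.norm_eq_abs,
      abs_of_nonneg h0, norm_mul, norm_mul, norm_mul, Real.norm_eq_abs, Real.norm_eq_abs,
      Real.norm_eq_abs, Real.norm_eq_abs, abs_of_nonneg (by positivity : 0 ≤ 1 + |x - z.1|),
      abs_of_nonneg (by positivity : 0 ≤ 1 + |z.2 - y|)]
    calc |τ₁ (x - z.1)| * (NUE.lgm (z.1 - z.2) * |τ₂ (z.2 - y)|) ≤
        |τ₁ (x - z.1)| * ((2 * (1 + |x - y|) * ((1 + |x - z.1|) * (1 + |z.2 - y|))) *
          |τ₂ (z.2 - y)|) := by gcongr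
      _ = _ := by ring

theorem EV_CF {f₁ f₂ m₁ m₂ : ℝ → ℝ} (h₁ : CT f₁ m₁) (h₂ : CT f₂ m₂) (c₂ : Continuous f₂)
    {C : ℝ} (b₂ : ∀ t, |f₂ t| ≤ C) (hi : IntegrableOn (fun k => m₁ k * (Uh k * m₂ k)) (Ioi 0)) :
    ∃ F : ℝ → ℝ, (∀ x y, EV f₁ f₂ x y = F (x - y)) ∧
      CF F 0 (fun k => -(1 / Real.pi * (m₁ k * (Uh k * m₂ k)))) := by
  refine ⟨fun t => ∫ k in Ioi (0:ℝ), 1 / Real.pi * (m₁ k * (Uh k * m₂ k)) * Real.cos (k * t),
    fun x y => ?_, CF.of_eval (hi.const_mul _) fun t => rfl⟩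
  unfold EV
  rw [energy_V h₁ h₂ c₂ b₂ hi, ← integral_const_mul]
  congr 1
  funext k
  ring

theorem EU_CF {τ₁ τ₂ m₁ m₂ : ℝ → ℝ} (h₁ : CT τ₁ m₁) (h₂ : CT τ₂ m₂)
    (i₁ : Integrable fun t => (1 + |t|) * τ₁ t) (i₂ : Integrable fun t => (1 + |t|) * τ₂ t) :
    ∃ F : ℝ → ℝ, (∀ x y, EU τ₁ τ₂ x y = F (x - y)) ∧
      CF F (2 * ((∫ t, τ₁ t) * ∫ t, τ₂ t)) (fun k => 1 / Real.pi * (m₁ k * m₂ k * Lh k)) := by
  obtain ⟨il, el⟩ := l0_eq
  set M : ℝ := (∫ t, τ₁ t) * ∫ t, τ₂ t with hM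
  have key : ∀ x y, EU τ₁ τ₂ x y = (∫ k in Ioi (0:ℝ), (2 * M / (k * sk k) -
      1 / Real.pi * (m₁ k * m₂ k * Lh k) * Real.cos (k * (x - y)))) ∧
      IntegrableOn (fun k => 2 * M / (k * sk k) -
      1 / Real.pi * (m₁ k * m₂ k * Lh k) * Real.cos (k * (x - y))) (Ioi 0) := by
    intro x y
    obtain ⟨i, e⟩ := energy_lg h₁ h₂ i₁ i₂ x y
    have e1 : EU τ₁ τ₂ x y = (∫ s, τ₁ (x - s) * ∫ s', NUE.lgm (s - s') * τ₂ (s' - y)) -
        Real.log (NUMF.g 0) * M := by
      have hin : ∀ s, ∫ s', -Real.log (NUMF.g (s - s')) * τ₂ (s' - y) =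
          (∫ s', NUE.lgm (s - s') * τ₂ (s' - y)) - Real.log (NUMF.g 0) * ∫ t, τ₂ t := by
        intro s
        have j1 : Integrable fun s' => τ₂ (s' - y) := h₂.int.comp_sub_right y
        have j2 : Integrable fun s' => NUE.lgm (s - s') * τ₂ (s' - y) := by
          have i2 := i₂.comp_sub_right y
          refine ((i2.norm).const_mul (2 * (1 + |s - y|))).mono' ?_ (ae_of_all _ fun s' => ?_)
          · have hc : Continuous fun s' => NUE.lgm (s - s') := by
              have := NUE.lgm_cont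
              fun_prop
            exact hc.aestronglyMeasurable.mul j1.aestronglyMeasurable
          · have h0 := lgm_nonneg (s - s')
            have h1 := NUE.lgm_le (s - s')
            have h2 : |s - s'| ≤ |s - y| + |s' - y| := by
              have := abs_sub_le s y s'
              rwa [abs_sub_comm y s'] at this
            have a := abs_nonneg (s - y)
            have b := abs_nonneg (s' - y)
            rw [norm_mul, Real.norm_eq_abs, Real.norm_eq_abs, abs_of_nonneg h0, norm_mul,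
              Real.norm_eq_abs, Real.norm_eq_abs, abs_of_nonneg (by positivity : 0 ≤ 1 + |s' - y|)]
            have h3 : NUE.lgm (s - s') ≤ 2 * (1 + |s - y|) * (1 + |s' - y|) := by
              refine h1.trans ?_
              nlinarith [mul_nonneg a b]
            calc NUE.lgm (s - s') * |τ₂ (s' - y)| ≤
                2 * (1 + |s - y|) * (1 + |s' - y|) * |τ₂ (s' - y)| := by gcongr
              _ = _ := by ring
        have j3 : ∀ s', -Real.log (NUMF.g (s - s')) * τ₂ (s' - y) =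
            NUE.lgm (s - s') * τ₂ (s' - y) - Real.log (NUMF.g 0) * τ₂ (s' - y) := by
          intro s'
          unfold NUE.lgm
          ring
        simp_rw [j3]
        rw [integral_sub j2 (j1.const_mul _), integral_const_mul,
          integral_sub_right_eq_self (fun u => τ₂ u) y]
      unfold EU
      simp_rw [hin]
      have k1 : Integrable fun s => τ₁ (x - s) * ∫ s', NUE.lgm (s - s') * τ₂ (s' - y) := by
        have := (joint_lg h₁.int h₂.int i₁ i₂ x y).integral_prod_left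
        simp only [integral_const_mul] at this
        exact this
      have k2 : Integrable fun s => τ₁ (x - s) := h₁.int.comp_sub_left x
      have k3 : ∀ s, τ₁ (x - s) * ((∫ s', NUE.lgm (s - s') * τ₂ (s' - y)) -
          Real.log (NUMF.g 0) * ∫ t, τ₂ t) = τ₁ (x - s) * (∫ s', NUE.lgm (s - s') * τ₂ (s' - y)) -
          τ₁ (x - s) * (Real.log (NUMF.g 0) * ∫ t, τ₂ t) := fun s => by ring
      simp_rw [k3]
      rw [integral_sub k1 (k2.mul_const _), integral_mul_const,
        integral_sub_left_eq_self (fun u => τ₁ u) volume x, hM]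
      ring
    have hsum : ∀ k : ℝ, 2 * M / (k * sk k) - 1 / Real.pi * (m₁ k * m₂ k * Lh k) *
        Real.cos (k * (x - y)) = 1 / Real.pi * ((M - m₁ k * m₂ k * Real.cos (k * (x - y))) * Lh k) -
        M * (1 / Real.pi * Lh k - 2 / (k * sk k)) := by
      intro k
      ring
    simp_rw [hsum]
    refine ⟨?_, (i.const_mul _).sub (il.const_mul _)⟩
    rw [integral_sub (i.const_mul _) (il.const_mul _), integral_const_mul, integral_const_mul, el,
      e1, e]
    ring
  refine ⟨fun t => EU τ₁ τ₂ t 0, fun x y => ?_, fun t => ?_⟩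
  · have h1 := (key x y).1
    have h2 := (key (x - y) 0).1
    rw [sub_zero] at h2
    exact h1.trans h2.symm
  · have := key t 0
    rw [sub_zero] at this
    exact ⟨this.2, this.1⟩

/-! ### pairs of objects -/

open NUMH NUO NUDispO NUSB

/-- linear extension to the five kinds -/
def ext1 (f : B → ℝ) (κ : Kind) : ℝ := ((dec κ).map fun a => a.2 * f a.1).sum

theorem ext2_mul (f g : B → ℝ) (κ κ' : Kind) :
    ext2 (fun a b => f a * g b) κ κ' = ext1 f κ * ext1 g κ' := by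
  rcases κ <;> rcases κ' <;> simp [ext2, ext1, dec] <;> ring

theorem ext2_add (f g : B → B → ℝ) (κ κ' : Kind) :
    ext2 (fun a b => f a b + g a b) κ κ' = ext2 f κ κ' + ext2 g κ κ' := by
  rcases κ <;> rcases κ' <;> simp [ext2, dec] <;> ring

theorem ext2_smul (c : ℝ) (f : B → B → ℝ) (κ κ' : Kind) :
    ext2 (fun a b => c * f a b) κ κ' = c * ext2 f κ κ' := by
  rcases κ <;> rcases κ' <;> simp [ext2, dec] <;> ring

/-- response in the sum of the species -/
def mP (κ : Kind) (k : ℝ) : ℝ := ext1 (fun a => fX a (NUMH.zk k) + fY a (NUMH.zk k)) κ / up (NUMH.zk k)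
/-- response in the difference of the species -/
def mM (κ : Kind) (k : ℝ) : ℝ := ext1 (fun a => fX a (NUMH.zk k) - fY a (NUMH.zk k)) κ / um (NUMH.zk k)

/-- the response densities of the five kinds: own species, other species, current source -/
structure Resp (sX sY τ : Kind → ℝ → ℝ) : Prop where
  cX : ∀ κ, CT (sX κ) fun k => (mP κ k + mM κ k) / 2
  cY : ∀ κ, CT (sY κ) fun k => (mP κ k - mM κ k) / 2
  cT : ∀ κ, CT (τ κ) (mM κ)
  contX : ∀ κ, Continuous (sX κ)
  contY : ∀ κ, Continuous (sY κ)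
  bdX : ∀ κ, ∃ C, ∀ t, |sX κ t| ≤ C
  bdY : ∀ κ, ∃ C, ∀ t, |sY κ t| ≤ C
  wT : ∀ κ, Integrable fun t => (1 + |t|) * τ κ t
  mass : ∀ κ, ∫ t, τ κ t = qc κ
  imP : ∀ κ, IntegrableOn (mP κ) (Ioi 0)
  imM : ∀ κ, IntegrableOn (mM κ) (Ioi 0)

theorem CT_bd {f m : ℝ → ℝ} (h : CT f m) {k : ℝ} (hk : 0 < k) : |m k| ≤ ∫ t, |f t| := by
  rw [← h.ft k hk, ← Real.norm_eq_abs]
  refine norm_integral_le_of_norm_le h.int.abs (ae_of_all _ fun t => ?_)
  rw [norm_mul, Real.norm_eq_abs, Real.norm_eq_abs]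
  exact mul_le_of_le_one_right (abs_nonneg _) (Real.abs_cos_le_one _)

theorem int_prod {f₁ m₁ m₂ : ℝ → ℝ} (h₁ : CT f₁ m₁) (i₁ : IntegrableOn m₁ (Ioi 0))
    (i₂ : IntegrableOn m₂ (Ioi 0)) : IntegrableOn (fun k => m₁ k * (Uh k * m₂ k)) (Ioi 0) := by
  refine (i₂.norm.const_mul ((∫ t, |f₁ t|) * ∫ t, |V t|)).mono' ?_ ?_
  · exact i₁.aestronglyMeasurable.mul
      ((NUE.Uh_meas.aestronglyMeasurable).mul i₂.aestronglyMeasurable)
  · refine (ae_restrict_iff' measurableSet_Ioi).2 (ae_of_all _ fun k hk => ?_)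
    have h3 := CT_bd h₁ hk
    have h4 := CT_bd CT_V hk
    rw [norm_mul, norm_mul, Real.norm_eq_abs, Real.norm_eq_abs, ← mul_assoc]
    gcongr

theorem Uh_PP {k : ℝ} : 1 / Real.pi * Uh k = 2 / (k * sk k) * up (NUMH.zk k) := by
  have hpi := Real.pi_pos
  have e : ck1 k = ch 4 (NUMH.zk k) := by
    unfold ck1 ch NUMH.zk NUMF.l
    congr 1
    push_cast
    ring
  unfold Uh up
  rw [e]
  field_simp

theorem Lh_PP {k : ℝ} : 1 / Real.pi * Lh k = 2 / (k * sk k) * (2 * ch 4 (NUMH.zk k) - 1) := by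
  have hpi := Real.pi_pos
  have e : ck1 k = ch 4 (NUMH.zk k) := by
    unfold ck1 ch NUMH.zk NUMF.l
    congr 1
    push_cast
    ring
  unfold Lh
  rw [e]
  field_simp

theorem up_um (z : ℝ) : up z + 2 * (2 * ch 4 z - 1) = um z := by
  unfold up um
  ring

/-- transform of the dressed kernel without cores -/
def qM (σ : Bool) (κ κ' : Kind) (k : ℝ) : ℝ := 2 / (k * sk k) * ext2 (fun a b =>
  (if σ then Ms a b (NUMH.zk k) - cbs a b * core (NUMH.zk k)
    else Mc a b (NUMH.zk k) - cbc a b * core (NUMH.zk k))) κ κ'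

/-- the response energy of a pair of objects -/
def ER (sX sY τ : Kind → ℝ → ℝ) (σ : Bool) (κ κ' : Kind) (x y : ℝ) : ℝ :=
  (if σ then EV (sX κ) (sX κ') x y + EV (sY κ) (sY κ') x y
    else EV (sX κ) (sY κ') x y + EV (sY κ) (sX κ') x y) - sgn σ * EU (τ κ) (τ κ') x y

/-- **the dressed pair kernel as a cosine integral**, every pair of kinds, exact constant -/
theorem pair_id {sX sY τ : Kind → ℝ → ℝ} (R : Resp sX sY τ) (σ : Bool) (κ κ' : Kind) :
    IntegrableOn (qM σ κ κ') (Ioi 0) ∧ ∀ x y, Dr 8 (9 / 4) (1 / 4) σ κ κ' (x - y) -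
      ER sX sY τ σ κ κ' x y = ∫ k in Ioi (0:ℝ), qM σ κ κ' k * Real.cos (k * (x - y)) := by
  have iX : ∀ κ, IntegrableOn (fun k => (mP κ k + mM κ k) / 2) (Ioi 0) :=
    fun κ => ((R.imP κ).add (R.imM κ)).div_const 2
  have iY : ∀ κ, IntegrableOn (fun k => (mP κ k - mM κ k) / 2) (Ioi 0) :=
    fun κ => ((R.imP κ).sub (R.imM κ)).div_const 2
  obtain ⟨CX, hCX⟩ := R.bdX κ'
  obtain ⟨CY, hCY⟩ := R.bdY κ'
  obtain ⟨F1, e1, c1⟩ := EV_CF (R.cX κ) (R.cX κ') (R.contX κ') hCX
    (int_prod (R.cX κ) (iX κ) (iX κ'))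
  obtain ⟨F2, e2, c2⟩ := EV_CF (R.cY κ) (R.cY κ') (R.contY κ') hCY
    (int_prod (R.cY κ) (iY κ) (iY κ'))
  obtain ⟨F3, e3, c3⟩ := EV_CF (R.cX κ) (R.cY κ') (R.contY κ') hCY
    (int_prod (R.cX κ) (iX κ) (iY κ'))
  obtain ⟨F4, e4, c4⟩ := EV_CF (R.cY κ) (R.cX κ') (R.contX κ') hCX
    (int_prod (R.cY κ) (iY κ) (iX κ'))
  obtain ⟨F5, e5, c5⟩ := EU_CF (R.cT κ) (R.cT κ') (R.wT κ) (R.wT κ')
  have hd := Dr_CF σ κ κ'
  rw [R.mass, R.mass] at c5
  have hq : ∀ k, 0 < k → -qM σ κ κ' k = -(2 / (k * sk k) *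
      ext2 (fun a b => dk σ a b (NUMH.zk k)) κ κ') +
      (if σ then 1 / Real.pi * ((mP κ k + mM κ k) / 2 * (Uh k * ((mP κ' k + mM κ' k) / 2))) +
        1 / Real.pi * ((mP κ k - mM κ k) / 2 * (Uh k * ((mP κ' k - mM κ' k) / 2)))
      else 1 / Real.pi * ((mP κ k + mM κ k) / 2 * (Uh k * ((mP κ' k - mM κ' k) / 2))) +
        1 / Real.pi * ((mP κ k - mM κ k) / 2 * (Uh k * ((mP κ' k + mM κ' k) / 2)))) +
      sgn σ * (1 / Real.pi * (mM κ k * mM κ' k * Lh k)) := by
    intro k hk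
    have hz := NUMH.zk_pos hk
    have h1 := (up_pos hz).ne'
    have h2 := (um_pos (NUMH.zk k)).ne'
    have hU := @Uh_PP k
    have hL := @Lh_PP k
    have hum := up_um (NUMH.zk k)
    set z := NUMH.zk k with hzdef
    set A := ext1 (fun a => fX a z + fY a z) κ with hA
    set A' := ext1 (fun a => fX a z + fY a z) κ' with hA'
    set B := ext1 (fun a => fX a z - fY a z) κ with hB
    set B' := ext1 (fun a => fX a z - fY a z) κ' with hB'
    have hs : ext2 (fun a b => (if σ then Ms a b z - cbs a b * core z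
        else Mc a b z - cbc a b * core z)) κ κ' =
        ext2 (fun a b => dk σ a b z) κ κ' - (1 / 2) * (A * A' / up z + sgn σ * (B * B' / um z)) := by
      have e : (fun a b => (if σ then Ms a b z - cbs a b * core z
          else Mc a b z - cbc a b * core z)) = fun a b => dk σ a b z +
          ((-(1 / 2) / up z) * ((fX a z + fY a z) * (fX b z + fY b z)) +
           (-(1 / 2) * sgn σ / um z) * ((fX a z - fY a z) * (fX b z - fY b z))) := by
        funext a b
        rcases σ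
        · simp only [dk, Bool.false_eq_true, if_false, Mc, sgn]; ring
        · simp only [dk, if_true, Ms, sgn]; ring
      rw [e, ext2_add, ext2_add, ext2_smul, ext2_smul, ext2_mul, ext2_mul]
      ring
    have hmP : mP κ k = A / up z := rfl
    have hmP' : mP κ' k = A' / up z := rfl
    have hmM : mM κ k = B / um z := rfl
    have hmM' : mM κ' k = B' / um z := rfl
    have hq : qM σ κ κ' k = 2 / (k * sk k) * ext2 (fun a b => (if σ then Ms a b z - cbs a b * core z
        else Mc a b z - cbc a b * core z)) κ κ' := rfl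
    rw [hq, hs, hmP, hmP', hmM, hmM']
    set P := 2 / (k * sk k) with hP
    have key : P * (up z / 2 + (2 * ch 4 z - 1)) = P * um z / 2 := by rw [← hum]; ring
    rcases σ
    · simp only [Bool.false_eq_true, if_false, sgn]
      have e1 : ∀ a b c d : ℝ, 1 / Real.pi * ((a + b) / 2 * (Uh k * ((c - d) / 2))) +
          1 / Real.pi * ((a - b) / 2 * (Uh k * ((c + d) / 2))) =
          (1 / Real.pi * Uh k) * ((a * c - b * d) / 2) := fun a b c d => by ring
      have e2 : ∀ a b : ℝ, 1 / Real.pi * (a * b * Lh k) = (1 / Real.pi * Lh k) * (a * b) :=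
        fun a b => by ring
      rw [e1, e2, hU, hL]
      have e3 : P * up z * ((A / up z * (A' / up z) - B / um z * (B' / um z)) / 2) +
          -1 * (P * (2 * ch 4 z - 1) * (B / um z * (B' / um z))) =
          P * (A * A' / up z) / 2 - P * (up z / 2 + (2 * ch 4 z - 1)) * (B / um z * (B' / um z)) := by
        field_simp
        ring
      rw [add_assoc, e3, key]
      field_simp
      ring
    · simp only [if_true, sgn]
      have e1 : ∀ a b c d : ℝ, 1 / Real.pi * ((a + b) / 2 * (Uh k * ((c + d) / 2))) +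
          1 / Real.pi * ((a - b) / 2 * (Uh k * ((c - d) / 2))) =
          (1 / Real.pi * Uh k) * ((a * c + b * d) / 2) := fun a b c d => by ring
      have e2 : ∀ a b : ℝ, 1 / Real.pi * (a * b * Lh k) = (1 / Real.pi * Lh k) * (a * b) :=
        fun a b => by ring
      rw [e1, e2, hU, hL]
      have e3 : P * up z * ((A / up z * (A' / up z) + B / um z * (B' / um z)) / 2) +
          1 * (P * (2 * ch 4 z - 1) * (B / um z * (B' / um z))) =
          P * (A * A' / up z) / 2 + P * (up z / 2 + (2 * ch 4 z - 1)) * (B / um z * (B' / um z)) := by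
        field_simp
        ring
      rw [add_assoc, e3, key]
      field_simp
      ring
  have hN : -(sgn σ * (2 * ((qc κ : ℝ) * (qc κ' : ℝ)))) + sgn σ * (2 * ((qc κ : ℝ) * (qc κ' : ℝ))) = 0 := by
    ring
  have hF : ∃ F : ℝ → ℝ, (∀ x y, Dr 8 (9 / 4) (1 / 4) σ κ κ' (x - y) - ER sX sY τ σ κ κ' x y =
      F (x - y)) ∧ CF F 0 (fun k => -qM σ κ κ' k) := by
    rcases σ
    · refine ⟨fun t => Dr 8 (9 / 4) (1 / 4) false κ κ' t - (F3 t + F4 t) + -1 * F5 t,
        fun x y => ?_, ?_⟩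
      · simp only [ER, Bool.false_eq_true, if_false, sgn, e3, e4, e5]; ring
      · refine ((hd.sub (c3.add c4)).add (c5.smul (-1))).congr (fun t => rfl) ?_ fun k hk => ?_
        · simp only [sgn, Bool.false_eq_true, if_false]; ring
        · have := hq k hk
          simp only [Bool.false_eq_true, if_false, sgn] at this
          rw [this]
          ring
    · refine ⟨fun t => Dr 8 (9 / 4) (1 / 4) true κ κ' t - (F1 t + F2 t) + 1 * F5 t,
        fun x y => ?_, ?_⟩
      · simp only [ER, if_true, sgn, e1, e2, e5]; ring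
      · refine ((hd.sub (c1.add c2)).add (c5.smul 1)).congr (fun t => rfl) ?_ fun k hk => ?_
        · simp only [sgn, if_true]; ring
        · have := hq k hk
          simp only [if_true, sgn] at this
          rw [this]
          ring
  obtain ⟨F, hF1, hF2⟩ := hF
  obtain ⟨i, e⟩ := hF2.eval
  refine ⟨?_, fun x y => ?_⟩
  · have := i.neg
    simpa using this
  · rw [hF1, e, ← integral_neg]
    congr 1
    funext k
    ring

end

end Pool.Agent.NUM3
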