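import Pool.Agent.NUM3.Tab4
import Pool.Agent.NUO.StabN
import Pool.Agent.NUO.StabX
import Pool.Agent.NUO.StabC
import Pool.Agent.NUO.Y_L_T
import Pool.Agent.NUO.Y_L_V
import Pool.Agent.NUO.Y_T_V
import Pool.Agent.NUO.Nab
import Pool.Agent.NUO.D1Block

/-!
# NUM3/Certs4 (helper3): all certificates of design D1; **O4 closed**

`certs4 : Certs4 (1/2600) nK nK NUD1.nLS NUD1.nTS` and `stabProd : NUStabP.StabProd`.
-/

set_option autoImplicit false

open MeasureTheory Set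

namespace Pool.Agent.NUM3

noncomputable section

open NUMH (B Ms Mc PP)
open NUPosK (PK)
open NUSB NUStabT NUDispO
open NUO (Kind Par Xo pairN ht kd sp cnt)

theorem same_of {m : ℝ → ℝ} {m' : ℝ → ℝ} {c : ℝ} (h : PK fun k => PP k * m (NUMH.zk k))
    (e : ∀ k, m' k = PQ k * m (zk k))
    (h1 : ∀ t : ℝ, |t| ≤ 1 → c ≤ ∫ k in Ioi (0:ℝ), PP k * m (NUMH.zk k) * Real.cos (k * t)) :
    PK m' ∧ ∀ x : ℝ, |x| ≤ 1 → c / Real.pi ≤ IT m' x := by
  refine ⟨(PK_PQ h).congr fun k _ => (e k).symm, fun x hx => ?_⟩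
  have h2 := h1 x hx
  have h3 : ∫ k in Ioi (0:ℝ), PP k * m (NUMH.zk k) * Real.cos (k * x) = Real.pi * IT m' x := by
    unfold IT
    rw [← integral_const_mul]
    congr 1
    funext k
    rw [e k, PP_eq, show NUMH.zk k = zk k from rfl]
    ring
  rw [h3] at h2
  have hpi := Real.pi_pos
  rw [div_le_iff₀ hpi]
  linarith

theorem c_LT : PK (mS .L .T) ∧ ∀ x : ℝ, |x| ≤ 1 → 1 / 2600 ≤ IT (mS .L .T) x := by
  have h := same_of (m := fun z => Ms .L .T z) (m' := mS .L .T) NUMH.Y_L_T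
    (fun k => by unfold mS; simp only [κs]; ring) (fun t ht => NUMH.Y_L_T_c0 ht)
  refine ⟨h.1, fun x hx => le_trans ?_ (h.2 x hx)⟩
  rw [le_div_iff₀ Real.pi_pos]
  have := Real.pi_lt_d2
  linarith

theorem c_LV : PK (mS .L .V) ∧ ∀ x : ℝ, |x| ≤ 1 → 1 / 2600 ≤ IT (mS .L .V) x := by
  have h := same_of (m := fun z => Ms .L .V z - 1 / 2 * core z) (m' := mS .L .V) NUMH.Y_L_V
    (fun k => by unfold mS; simp only [κs]) (fun t ht => NUMH.Y_L_V_c0 ht)
  refine ⟨h.1, fun x hx => le_trans ?_ (h.2 x hx)⟩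
  rw [le_div_iff₀ Real.pi_pos]
  have := Real.pi_lt_d2
  linarith

theorem cos_diff : (1 : ℝ) / 10 ≤ Real.cos ((1 : ℕ) * Real.pi / 16) - Real.cos ((3 : ℕ) * Real.pi / 16) := by
  have hpi := Real.pi_gt_three
  have hpi2 := Real.pi_lt_d2
  have e : Real.cos ((1 : ℕ) * Real.pi / 16) - Real.cos ((3 : ℕ) * Real.pi / 16) =
      2 * Real.sin (Real.pi / 8) * Real.sin (Real.pi / 16) := by
    rw [Real.cos_sub_cos]
    rw [show ((1 : ℕ) * Real.pi / 16 + (3 : ℕ) * Real.pi / 16) / 2 = Real.pi / 8 by push_cast; ring,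
      show ((1 : ℕ) * Real.pi / 16 - (3 : ℕ) * Real.pi / 16) / 2 = -(Real.pi / 16) by push_cast; ring,
      Real.sin_neg]
    ring
  rw [e]
  have h1 := Real.mul_le_sin (x := Real.pi / 8) (by positivity) (by linarith)
  have h2 := Real.mul_le_sin (x := Real.pi / 16) (by positivity) (by linarith)
  have h3 : 2 / Real.pi * (Real.pi / 8) = 1 / 4 := by field_simp; norm_num
  have h4 : 2 / Real.pi * (Real.pi / 16) = 1 / 8 := by field_simp; norm_num
  have h1' : (15:ℝ) / 41 ≤ Real.sin (Real.pi / 8) := by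
    have := Real.sin_gt_sub_cube (x := Real.pi / 8) (by positivity)
    have a : (0.39:ℝ) ≤ Real.pi / 8 := by linarith [Real.pi_gt_d2]
    have b : Real.pi / 8 ≤ 0.394 := by linarith
    have c : (Real.pi / 8) ^ 3 ≤ 0.394 ^ 3 := pow_le_pow_left₀ (by positivity) b 3
    norm_num at c
    linarith
  have h2' : (0.19:ℝ) ≤ Real.sin (Real.pi / 16) := by
    have := Real.sin_gt_sub_cube (x := Real.pi / 16) (by positivity)
    have a : (0.196:ℝ) ≤ Real.pi / 16 := by linarith [Real.pi_gt_d2]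
    have b : Real.pi / 16 ≤ 0.197 := by linarith
    have c : (Real.pi / 16) ^ 3 ≤ 0.197 ^ 3 := pow_le_pow_left₀ (by positivity) b 3
    norm_num at c
    linarith
  nlinarith

theorem c_TV : PK (mS .T .V) ∧ ∀ x : ℝ, |x| ≤ 1 → 1 / 2600 ≤ IT (mS .T .V) x := by
  have h := same_of (m := fun z => Ms .T .V z) (m' := mS .T .V) NUMH.Y_T_V
    (fun k => by unfold mS; simp only [κs]; ring) (fun t ht => NUMH.Y_T_V_lower ht)
  refine ⟨h.1, fun x hx => le_trans ?_ (h.2 x hx)⟩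
  rw [le_div_iff₀ Real.pi_pos]
  have h1 := cos_diff
  have h2 := Real.pi_pos
  have h3 : (17 / 20 : ℝ) * (Real.pi / 5 * (1 / 10)) ≤ 17 / 20 * (Real.pi / 5 *
    (Real.cos ((1 : ℕ) * Real.pi / 16) - Real.cos ((3 : ℕ) * Real.pi / 16))) := by gcongr
  refine le_trans ?_ h3
  nlinarith

/-- **all certificates of design D1** -/
theorem certs4 : Certs4 (1 / 2600) nK nK NUD1.nLS NUD1.nTS where
  LT := c_LT.1
  LV := c_LV.1
  TV := c_TV.1
  N := c_N
  LL := c_N
  TT := c_N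
  LS := PK_nLS
  TS := PK_nTS
  LT1 := c_LT.2
  LV1 := c_LV.2
  TV1 := c_TV.2
  N1 := c_N1
  LL1 := c_N1
  TT1 := c_N1
  LS1 x hx := le_trans (by norm_num) (nLS_lower hx)
  TS1 x hx := le_trans (by norm_num) (nTS_lower hx)
  xLL := x_LL
  xLT := x_LT
  xTT := x_TT
  xLS := x_LS
  xLV := x_LV
  xTS := x_TS
  xTV := x_TV
  xSS := x_SS
  xSV := x_SV
  xVV := x_VV
  form k hk xL xT s v := by
    refine (NUD1.form hk xL xT s v).trans (le_of_eq ?_)
    ring

/-- **the stability bound for ordered pairs of objects, helper43's densities** -/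
theorem stabObj : NUStabP.StabObj NUStabP.rX NUStabP.rY NUStabP.rT (1 / 2600) :=
  stab_obj4 NUStabP.resp43 certs4 (by norm_num)

/-- **the stability bound in product form: O4 closed** -/
theorem stabProd : NUStabP.StabProd := NUStabP.stabC_of (by norm_num) stabObj

end

end Pool.Agent.NUM3
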