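import Pool.Agent.NUO.StabTab
import Pool.Agent.NUO.SlackN
import Pool.Agent.NUO.X_L_L
import Pool.Agent.NUO.X_L_T
import Pool.Agent.NUO.X_L_V
import Pool.Agent.NUO.X_T_T
import Pool.Agent.NUO.X_T_V
import Pool.Agent.NUO.X_S_T
import Pool.Agent.NUO.X_S_L
import Pool.Agent.NUO.X_S_S
import Pool.Agent.NUO.X_S_V
import Pool.Agent.NUO.X_V_V

/-!
# NUM3/CertsX (helper3): the certificates of `NUStabT.Certs` from the files X_*, SlackN

`certs_of`: the ten cross kernels and `N` are closed; only the seven same kind kernels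
(`Same c0`) remain as hypothesis.
-/

set_option autoImplicit false

open MeasureTheory Set

namespace Pool.Agent.NUM3

noncomputable section

open NUMH (B Ms Mc PP)
open NUPosK (PK)
open NUSB NUStabT

/-- the same kind certificates with `L` or `T` -/
structure Same (c0 : ℝ) : Prop where
  LL : PK (mS .L .L)
  LT : PK (mS .L .T)
  TT : PK (mS .T .T)
  LS : PK (mS .L .S)
  LV : PK (mS .L .V)
  TS : PK (mS .T .S)
  TV : PK (mS .T .V)
  LL1 : ∀ x, |x| ≤ 1 → c0 ≤ IT (mS .L .L) x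
  LT1 : ∀ x, |x| ≤ 1 → c0 ≤ IT (mS .L .T) x
  TT1 : ∀ x, |x| ≤ 1 → c0 ≤ IT (mS .T .T) x
  LS1 : ∀ x, |x| ≤ 1 → c0 ≤ IT (mS .L .S) x
  LV1 : ∀ x, |x| ≤ 1 → c0 ≤ IT (mS .L .V) x
  TS1 : ∀ x, |x| ≤ 1 → c0 ≤ IT (mS .T .S) x
  TV1 : ∀ x, |x| ≤ 1 → c0 ≤ IT (mS .T .V) x

theorem zk_eq (k : ℝ) : NUMH.zk k = NUSB.zk k := rfl

theorem xcert {m m' : ℝ → ℝ} {c : ℝ} (hc : 0 ≤ c) (h : PK fun k => PP k * m (NUMH.zk k))
    (e : ∀ k, m' k = PQ k * m (zk k) + c * (PQ k * (ch 16 (zk k) - ch 14 (zk k) - core (zk k)))) :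
    PK m' :=
  ((PK_PQ h).add (NUCone.PK_cone.smul hc)).congr fun k _ => (e k).symm

theorem NK : PK nK := by
  refine ⟨NUSlk.NN_integrable, fun t => ?_⟩
  have h := (NUSlk.Nt_fourier t).2
  have h0 := (NUSlk.Nt_pos t).le
  rw [h] at h0
  exact h0

theorem NK1 (x : ℝ) (hx : |x| ≤ 1) : 1 / 2600 ≤ IT nK x := by
  have h := (NUSlk.Nt_fourier x).2
  have h0 := NUSlk.Nt_ge_one hx
  rw [h] at h0
  exact h0

/-- **all certificates from the same kind certificates** -/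
theorem certs_of {c0 : ℝ} (hc : c0 ≤ 1 / 2600) (S : Same c0) : Certs c0 where
  LL := S.LL
  LT := S.LT
  TT := S.TT
  LS := S.LS
  LV := S.LV
  TS := S.TS
  TV := S.TV
  N := NK
  LL1 := S.LL1
  LT1 := S.LT1
  TT1 := S.TT1
  LS1 := S.LS1
  LV1 := S.LV1
  TS1 := S.TS1
  TV1 := S.TV1
  N1 x hx := hc.trans (NK1 x hx)
  xLL := xcert (c := 0) (m := fun z => Mc .L .L z) le_rfl NUMH.X_L_L fun k => by
    simp only [mC, κc]; ring
  xLT := xcert (c := 0) (m := fun z => Mc .L .T z) le_rfl NUMH.X_L_T fun k => by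
    simp only [mC, κc]; ring
  xTT := xcert (c := 0) (m := fun z => Mc .T .T z) le_rfl NUMH.X_T_T fun k => by
    simp only [mC, κc]; ring
  xLS := xcert (c := 0) (m := fun z => Mc .S .L z) le_rfl NUMH.X_S_L fun k => by
    simp only [mC, κc]; rw [NUMH.Mc_symm]; ring
  xLV := xcert (c := 1) (m := fun z => Mc .L .V z - (ch 16 z - ch 14 z)) zero_le_one
    NUMH.X_L_V fun k => by simp only [mC, κc]; ring
  xTS := xcert (c := 0) (m := fun z => Mc .S .T z) le_rfl NUMH.X_S_T fun k => by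
    simp only [mC, κc]; rw [NUMH.Mc_symm]; ring
  xTV := xcert (c := 0) (m := fun z => Mc .T .V z) le_rfl NUMH.X_T_V fun k => by
    simp only [mC, κc]; ring
  xSS := xcert (c := 0) (m := fun z => Mc .S .S z + gg z) le_rfl NUMH.X_S_S fun k => by
    simp only [mC, κc, gK]; ring
  xSV := xcert (c := 1) (m := fun z => Mc .S .V z - gg z * al z - (ch 16 z - ch 14 z))
    zero_le_one NUMH.X_S_V fun k => by simp only [mC, κc, gK, wK]; ring
  xVV := xcert (c := 2) (m := fun z => Mc .V .V z + gg z * al z ^ 2 - 2 * (ch 16 z - ch 14 z))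
    zero_le_two NUMH.X_V_V fun k => by simp only [mC, κc, gK, wK]; ring

end

end Pool.Agent.NUM3
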