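import Pool.Agent.NUM3.Stab

/-!
NUM3/Lift (helper3): the stability bound when the positive definite part is a `2 × 2` block
`α β γ` on `(S, Svv)`, all other kinds being represented by vectors `v a ∈ ℝ²`
(`S ↦ (1,0)`, `Svv ↦ (0,1)`, `Sv ↦ (1/2,1/2)`, `L, St ↦ (0,0)`), and the cross part is
`- g (1,-w)(1,-w)^T`.
-/

namespace Pool.Agent.NUM3

open MeasureTheory Finset

variable {ι : Type*} {κ : Type*} [Fintype ι]

/-- the kernel of a `2 × 2` block on kinds represented by vectors -/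
def lift (v : ι → ℝ × ℝ) (α β γ : ℝ → ℝ) (a b : ι) (k : ℝ) : ℝ :=
  (v a).1 * (v b).1 * α k + ((v a).1 * (v b).2 + (v a).2 * (v b).1) * β k +
    (v a).2 * (v b).2 * γ k

omit [Fintype ι] in
theorem lift_symm (v : ι → ℝ × ℝ) (α β γ : ℝ → ℝ) (a b : ι) (k : ℝ) :
    lift v α β γ a b k = lift v α β γ b a k := by
  unfold lift; ring

theorem lift_form (v : ι → ℝ × ℝ) (α β γ : ℝ → ℝ) (k : ℝ) (u : ι → ℝ) :
    ∑ a, ∑ b, lift v α β γ a b k * u a * u b =
      α k * (∑ a, u a * (v a).1) ^ 2 + 2 * β k * ((∑ a, u a * (v a).1) * (∑ a, u a * (v a).2)) +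
      γ k * (∑ a, u a * (v a).2) ^ 2 := by
  have h : ∀ f g : ι → ℝ, (∑ a, f a) * (∑ b, g b) = ∑ a, ∑ b, f a * g b := fun f g =>
    Finset.sum_mul_sum _ _ _ _
  have h1 : ∑ a, ∑ b, (u a * (v a).1) * (u b * (v b).2) =
      ∑ a, ∑ b, (u a * (v a).2) * (u b * (v b).1) := by
    rw [Finset.sum_comm]
    exact Finset.sum_congr rfl fun a _ => Finset.sum_congr rfl fun b _ => by ring
  have e : 2 * β k * ((∑ a, u a * (v a).1) * (∑ a, u a * (v a).2)) =
      β k * ((∑ a, ∑ b, (u a * (v a).1) * (u b * (v b).2)) +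
        ∑ a, ∑ b, (u a * (v a).2) * (u b * (v b).1)) := by
    rw [← h1, h]
    ring
  rw [e, sq, sq, h, h, Finset.mul_sum, Finset.mul_sum, ← Finset.sum_add_distrib,
    Finset.mul_sum, ← Finset.sum_add_distrib, ← Finset.sum_add_distrib]
  refine Finset.sum_congr rfl fun a _ => ?_
  rw [Finset.mul_sum, Finset.mul_sum, ← Finset.sum_add_distrib, Finset.mul_sum,
    ← Finset.sum_add_distrib, ← Finset.sum_add_distrib]
  refine Finset.sum_congr rfl fun b _ => ?_
  unfold lift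
  ring

theorem quad_nonneg {A B C : ℝ} (hA : 0 ≤ A) (hC : 0 ≤ C) (h : B ^ 2 ≤ A * C) (x y : ℝ) :
    0 ≤ A * x ^ 2 + 2 * B * (x * y) + C * y ^ 2 := by
  rcases hA.eq_or_lt with h0 | h0
  · subst h0
    have hB : B = 0 := by nlinarith [sq_nonneg B]
    subst hB
    nlinarith [mul_nonneg hC (sq_nonneg y)]
  · have h1 : 0 ≤ A * (A * x ^ 2 + 2 * B * (x * y) + C * y ^ 2) := by
      nlinarith [sq_nonneg (A * x + B * y), mul_nonneg (sub_nonneg.2 h) (sq_nonneg y)]
    exact nonneg_of_mul_nonneg_right h1 h0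

theorem lift_psd (v : ι → ℝ × ℝ) {α β γ : ℝ → ℝ} {k : ℝ} (hα : 0 ≤ α k) (hγ : 0 ≤ γ k)
    (h : β k ^ 2 ≤ α k * γ k) (u : ι → ℝ) : 0 ≤ ∑ a, ∑ b, lift v α β γ a b k * u a * u b := by
  rw [lift_form]
  exact quad_nonneg hα hγ h _ _

omit [Fintype ι] in
theorem lift_integrable (v : ι → ℝ × ℝ) {α β γ : ℝ → ℝ}
    (hα : IntegrableOn α (Set.Ioi 0)) (hβ : IntegrableOn β (Set.Ioi 0))
    (hγ : IntegrableOn γ (Set.Ioi 0)) (a b : ι) :
    IntegrableOn (lift v α β γ a b) (Set.Ioi 0) := by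
  have h := ((hα.const_mul ((v a).1 * (v b).1)).add
    (hβ.const_mul ((v a).1 * (v b).2 + (v a).2 * (v b).1))).add
    (hγ.const_mul ((v a).2 * (v b).2))
  exact h

/-- **stability bound, `2 × 2` block with a rank one cross part.**
Ordered pairs; `c0` may be any positive number. -/
theorem stab_lift [DecidableEq κ] (v : ι → ℝ × ℝ)
    (s : Finset κ) (a : κ → ι) (sp : κ → Bool) (t : κ → ℝ)
    (m core : κ → κ → ℝ) {c0 Cc B ε : ℝ} {Rs Rc : ι → ι → ℝ → ℝ} {α β γ g w : ℝ → ℝ}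
    (hm : ∀ i ∈ s, ∀ j ∈ s, i ≠ j → core i j +
      (if sp i = sp j then Rs (a i) (a j) (t i - t j) else Rc (a i) (a j) (t i - t j)) - ε
        ≤ m i j)
    (hcore : -Cc ≤ ∑ i ∈ s, ∑ j ∈ s.erase i, core i j)
    (hc0 : 0 ≤ c0) (hε : 0 ≤ ε)
    (hRs0 : ∀ b d x, FK (lift v α β γ) b d x ≤ Rs b d x)
    (hRs1 : ∀ b d x, |x| ≤ 1 → c0 + FK (lift v α β γ) b d x ≤ Rs b d x)
    (hRc0 : ∀ b d x, FK (lift v (fun k => -g k) (fun k => w k * g k)
      (fun k => -(w k ^ 2 * g k))) b d x ≤ Rc b d x)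
    (hg : ∀ k : ℝ, 0 < k → 0 ≤ g k)
    (hα : ∀ k : ℝ, 0 < k → g k ≤ α k) (hγ : ∀ k : ℝ, 0 < k → w k ^ 2 * g k ≤ γ k)
    (hdet : ∀ k : ℝ, 0 < k → (β k + w k * g k) ^ 2 ≤ (α k - g k) * (γ k - w k ^ 2 * g k))
    (iα : IntegrableOn α (Set.Ioi 0)) (iβ : IntegrableOn β (Set.Ioi 0))
    (iγ : IntegrableOn γ (Set.Ioi 0)) (ig : IntegrableOn g (Set.Ioi 0))
    (iwg : IntegrableOn (fun k => w k * g k) (Set.Ioi 0))
    (iwwg : IntegrableOn (fun k => w k ^ 2 * g k) (Set.Ioi 0))
    (hB : ∀ b, FK (lift v α β γ) b b 0 ≤ B) :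
    c0 / 4 * W2 s (fun i => ⌊t i⌋) - (c0 + B) * s.card - Cc - ε * (s.card : ℝ) ^ 2 ≤
      ∑ i ∈ s, ∑ j ∈ s.erase i, m i j := by
  refine stab s a sp t m core (δ := 0)
    (Ns := fun b d x => Rs b d x - FK (lift v α β γ) b d x)
    (Nc := fun b d x => Rc b d x - FK (lift v (fun k => -g k) (fun k => w k * g k)
      (fun k => -(w k ^ 2 * g k))) b d x)
    (qs := lift v α β γ)
    (qc := lift v (fun k => -g k) (fun k => w k * g k) (fun k => -(w k ^ 2 * g k)))
    ?_ hcore le_rfl (by linarith) hε ?_ ?_ ?_ ?_ ?_ ?_ ?_ ?_ hB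
  · intro i hi j hj hij
    refine le_trans (le_of_eq ?_) (hm i hi j hj hij)
    split_ifs <;> ring
  · intro b d x
    have := hRs0 b d x
    linarith
  · intro b d x hx
    have := hRs1 b d x hx
    linarith
  · intro b d x
    have := hRc0 b d x
    linarith
  · intro k _ b d
    exact lift_symm _ _ _ _ _ _ _
  · intro k hk u
    have e : ∀ b d, lift v α β γ b d k +
        lift v (fun k => -g k) (fun k => w k * g k) (fun k => -(w k ^ 2 * g k)) b d k =
        lift v (fun k => α k - g k) (fun k => β k + w k * g k) (fun k => γ k - w k ^ 2 * g k)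
          b d k := by
      intro b d; unfold lift; ring
    simp_rw [e]
    refine lift_psd v (by simpa using hα k hk) (by simpa using hγ k hk) (hdet k hk) u
  · intro k hk u
    have e : ∀ b d, lift v α β γ b d k -
        lift v (fun k => -g k) (fun k => w k * g k) (fun k => -(w k ^ 2 * g k)) b d k =
        lift v (fun k => α k - g k) (fun k => β k + w k * g k) (fun k => γ k - w k ^ 2 * g k)
          b d k + 2 * lift v g (fun k => -(w k * g k)) (fun k => w k ^ 2 * g k) b d k := by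
      intro b d; unfold lift; ring
    simp_rw [e]
    have h1 := lift_psd v (α := fun k => α k - g k) (β := fun k => β k + w k * g k)
      (γ := fun k => γ k - w k ^ 2 * g k) (k := k) (by simpa using hα k hk)
      (by simpa using hγ k hk) (hdet k hk) u
    have h2 := lift_psd v (α := g) (β := fun k => -(w k * g k)) (γ := fun k => w k ^ 2 * g k)
      (k := k) (hg k hk) (mul_nonneg (sq_nonneg _) (hg k hk)) (by
        apply le_of_eq; ring) u
    have h3 : ∑ b, ∑ d, (lift v (fun k => α k - g k) (fun k => β k + w k * g k)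
        (fun k => γ k - w k ^ 2 * g k) b d k +
        2 * lift v g (fun k => -(w k * g k)) (fun k => w k ^ 2 * g k) b d k) * u b * u d =
        ∑ b, ∑ d, lift v (fun k => α k - g k) (fun k => β k + w k * g k)
        (fun k => γ k - w k ^ 2 * g k) b d k * u b * u d +
        2 * ∑ b, ∑ d, lift v g (fun k => -(w k * g k)) (fun k => w k ^ 2 * g k) b d k *
          u b * u d := by
      rw [Finset.mul_sum, ← Finset.sum_add_distrib]
      refine Finset.sum_congr rfl fun b _ => ?_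
      rw [Finset.mul_sum, ← Finset.sum_add_distrib]
      refine Finset.sum_congr rfl fun d _ => ?_
      ring
    rw [h3]
    linarith
  · intro b d
    exact lift_integrable v iα iβ iγ b d
  · intro b d
    exact lift_integrable v ig.neg iwg iwwg.neg b d

end Pool.Agent.NUM3
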