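import Mathlib

/-!
NUM3/Psd (helper3): generic layer of the stability certificate (STAB).
A finite configuration of objects `i : s` with kind `a i : ι` and height `t i : ℝ`.
-/

namespace Pool.Agent.NUM3

open MeasureTheory Finset

variable {ι : Type*} {κ : Type*} [Fintype ι]

/-- real space kernel of a Fourier density on the half line -/
noncomputable def FK (q : ι → ι → ℝ → ℝ) (a b : ι) (t : ℝ) : ℝ :=
  ∫ k in Set.Ioi (0 : ℝ), q a b k * Real.cos (k * t)

/-- the quadratic form at one frequency -/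
theorem form_nonneg {q : ι → ι → ℝ} (hq : ∀ x : ι → ℝ, 0 ≤ ∑ a, ∑ b, q a b * x a * x b)
    (s : Finset κ) (a : κ → ι) (t : κ → ℝ) (c : κ → ℝ) (k : ℝ) :
    0 ≤ ∑ i ∈ s, ∑ j ∈ s, c i * c j * (q (a i) (a j) * Real.cos (k * (t i - t j))) := by
  classical
  have key : ∀ f : κ → ℝ, ∑ i ∈ s, ∑ j ∈ s, c i * c j * (q (a i) (a j) * (f i * f j)) =
      ∑ x, ∑ y, q x y * (∑ i ∈ s with a i = x, c i * f i) * (∑ j ∈ s with a j = y, c j * f j) := by
    intro f
    have h1 : ∀ x y : ι, q x y * (∑ i ∈ s with a i = x, c i * f i) *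
        (∑ j ∈ s with a j = y, c j * f j) =
        ∑ i ∈ s, ∑ j ∈ s, (if a i = x then (if a j = y then
          c i * c j * (q x y * (f i * f j)) else 0) else 0) := by
      intro x y
      rw [Finset.sum_filter, Finset.sum_filter, mul_assoc, Finset.sum_mul_sum, Finset.mul_sum]
      refine Finset.sum_congr rfl fun i _ => ?_
      rw [Finset.mul_sum]
      refine Finset.sum_congr rfl fun j _ => ?_
      split_ifs <;> ring
    simp_rw [h1]
    have h2 : ∀ x : ι, ∑ y, ∑ i ∈ s, ∑ j ∈ s, (if a i = x then (if a j = y then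
          c i * c j * (q x y * (f i * f j)) else 0) else 0) =
        ∑ i ∈ s, ∑ j ∈ s, (if a i = x then c i * c j * (q x (a j) * (f i * f j)) else 0) := by
      intro x
      rw [Finset.sum_comm (s := Finset.univ) (t := s)]
      refine Finset.sum_congr rfl fun i _ => ?_
      rw [Finset.sum_comm (s := Finset.univ) (t := s)]
      refine Finset.sum_congr rfl fun j _ => ?_
      split_ifs with h
      · simp
      · simp
    simp_rw [h2]
    rw [Finset.sum_comm (s := Finset.univ) (t := s)]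
    refine Finset.sum_congr rfl fun i _ => ?_
    rw [Finset.sum_comm (s := Finset.univ) (t := s)]
    refine Finset.sum_congr rfl fun j _ => ?_
    simp
  have e : ∑ i ∈ s, ∑ j ∈ s, c i * c j * (q (a i) (a j) * Real.cos (k * (t i - t j))) =
      (∑ i ∈ s, ∑ j ∈ s, c i * c j * (q (a i) (a j) * (Real.cos (k * t i) * Real.cos (k * t j)))) +
      (∑ i ∈ s, ∑ j ∈ s, c i * c j * (q (a i) (a j) * (Real.sin (k * t i) * Real.sin (k * t j))))
      := by
    rw [← Finset.sum_add_distrib]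
    refine Finset.sum_congr rfl fun i _ => ?_
    rw [← Finset.sum_add_distrib]
    refine Finset.sum_congr rfl fun j _ => ?_
    have : k * (t i - t j) = k * t i - k * t j := by ring
    rw [this, Real.cos_sub]
    ring
  rw [e, key, key]
  exact add_nonneg (hq _) (hq _)

/-- PSD densities give nonnegative energies (all ordered pairs, with weights `c`). -/
theorem energy_nonneg {q : ι → ι → ℝ → ℝ}
    (hq : ∀ k : ℝ, 0 < k → ∀ x : ι → ℝ, 0 ≤ ∑ a, ∑ b, q a b k * x a * x b)
    (hi : ∀ a b, IntegrableOn (q a b) (Set.Ioi 0))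
    (s : Finset κ) (a : κ → ι) (t : κ → ℝ) (c : κ → ℝ) :
    0 ≤ ∑ i ∈ s, ∑ j ∈ s, c i * c j * FK q (a i) (a j) (t i - t j) := by
  have hint : ∀ i j : κ, IntegrableOn
      (fun k => c i * c j * (q (a i) (a j) k * Real.cos (k * (t i - t j)))) (Set.Ioi 0) := by
    intro i j
    apply Integrable.const_mul
    have h := (hi (a i) (a j))
    refine Integrable.mul_bdd (c := 1) h ?_ ?_
    · exact (Real.continuous_cos.comp (by fun_prop)).aestronglyMeasurable
    · exact Filter.Eventually.of_forall fun k => by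
        rw [Real.norm_eq_abs]; exact Real.abs_cos_le_one _
  have e : ∑ i ∈ s, ∑ j ∈ s, c i * c j * FK q (a i) (a j) (t i - t j) =
      ∫ k in Set.Ioi (0 : ℝ), ∑ i ∈ s, ∑ j ∈ s,
        c i * c j * (q (a i) (a j) k * Real.cos (k * (t i - t j))) := by
    rw [integral_finsetSum _ (fun i _ => integrable_finsetSum _ fun j _ => hint i j)]
    refine Finset.sum_congr rfl fun i _ => ?_
    rw [integral_finsetSum _ (fun j _ => hint i j)]
    refine Finset.sum_congr rfl fun j _ => ?_
    rw [integral_const_mul, FK]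
  rw [e]
  refine setIntegral_nonneg measurableSet_Ioi fun k hk => ?_
  exact form_nonneg (hq k hk) s a t c k

/-- sum over unordered pairs: `∑_{i<j} 2 Q ≥ - ∑ Q_ii(0)` in the off diagonal form. -/
theorem pairs_ge [DecidableEq κ] {q : ι → ι → ℝ → ℝ}
    (hq : ∀ k : ℝ, 0 < k → ∀ x : ι → ℝ, 0 ≤ ∑ a, ∑ b, q a b k * x a * x b)
    (hi : ∀ a b, IntegrableOn (q a b) (Set.Ioi 0))
    (s : Finset κ) (a : κ → ι) (t : κ → ℝ) :
    -∑ i ∈ s, FK q (a i) (a i) 0 ≤
      ∑ i ∈ s, ∑ j ∈ s.erase i, FK q (a i) (a j) (t i - t j) := by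
  have h := energy_nonneg hq hi s a t (fun _ => 1)
  simp only [one_mul] at h
  have e : ∑ i ∈ s, ∑ j ∈ s, FK q (a i) (a j) (t i - t j) =
      ∑ i ∈ s, FK q (a i) (a i) 0 +
        ∑ i ∈ s, ∑ j ∈ s.erase i, FK q (a i) (a j) (t i - t j) := by
    rw [← Finset.sum_add_distrib]
    refine Finset.sum_congr rfl fun i hi' => ?_
    rw [← Finset.add_sum_erase s _ hi', sub_self]
  rw [e] at h
  linarith

/-- window lemma: a pointwise nonnegative kernel that is `≥ c` at distance `≤ 1`
controls the squares of the window occupation numbers. -/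
theorem window_ge [DecidableEq κ] {R : κ → κ → ℝ} {c : ℝ}
    (s : Finset κ) (t : κ → ℝ)
    (h0 : ∀ i ∈ s, ∀ j ∈ s, i ≠ j → 0 ≤ R i j)
    (h1 : ∀ i ∈ s, ∀ j ∈ s, i ≠ j → |t i - t j| ≤ 1 → c ≤ R i j) :
    c * (∑ w ∈ s.image (fun i => ⌊t i⌋), (((s.filter fun i => ⌊t i⌋ = w).card : ℝ)) ^ 2) -
      c * s.card ≤ ∑ i ∈ s, ∑ j ∈ s.erase i, R i j := by
  classical
  have hA : ∀ i ∈ s, c * ((s.filter fun j => ⌊t j⌋ = ⌊t i⌋).card : ℝ) - c ≤
      ∑ j ∈ s.erase i, R i j := by
    intro i hi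
    have hsub : (s.filter fun j => ⌊t j⌋ = ⌊t i⌋).erase i ⊆ s.erase i := by
      intro j hj
      simp only [mem_erase, mem_filter] at hj ⊢
      exact ⟨hj.1, hj.2.1⟩
    have hmem : i ∈ s.filter fun j => ⌊t j⌋ = ⌊t i⌋ := by simp [hi]
    calc c * ((s.filter fun j => ⌊t j⌋ = ⌊t i⌋).card : ℝ) - c
        = ∑ j ∈ (s.filter fun j => ⌊t j⌋ = ⌊t i⌋).erase i, c := by
          rw [Finset.sum_const, Finset.card_erase_of_mem hmem, nsmul_eq_mul]
          have : 1 ≤ (s.filter fun j => ⌊t j⌋ = ⌊t i⌋).card := Finset.card_pos.2 ⟨i, hmem⟩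
          push_cast [Nat.cast_sub this]
          ring
      _ ≤ ∑ j ∈ (s.filter fun j => ⌊t j⌋ = ⌊t i⌋).erase i, R i j := by
          refine Finset.sum_le_sum fun j hj => ?_
          simp only [mem_erase, mem_filter] at hj
          refine h1 i hi j hj.2.1 (Ne.symm hj.1) ?_
          have := Int.abs_sub_lt_one_of_floor_eq_floor hj.2.2
          rw [abs_sub_comm]
          exact this.le
      _ ≤ ∑ j ∈ s.erase i, R i j := by
          refine Finset.sum_le_sum_of_subset_of_nonneg hsub fun j hj _ => ?_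
          simp only [mem_erase] at hj
          exact h0 i hi j hj.2 (Ne.symm hj.1)
  have hB := Finset.sum_le_sum hA
  refine le_trans (le_of_eq ?_) hB
  rw [Finset.sum_sub_distrib, ← Finset.mul_sum, Finset.sum_const, nsmul_eq_mul]
  have hC : ∑ i ∈ s, ((s.filter fun j => ⌊t j⌋ = ⌊t i⌋).card : ℝ) =
      ∑ w ∈ s.image (fun i => ⌊t i⌋), (((s.filter fun i => ⌊t i⌋ = w).card : ℝ)) ^ 2 := by
    rw [← Finset.sum_fiberwise_of_maps_to (s := s) (t := s.image fun i => ⌊t i⌋)
      (g := fun i => ⌊t i⌋) (fun i hi => Finset.mem_image_of_mem _ hi)]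
    refine Finset.sum_congr rfl fun w _ => ?_
    have : ∀ i ∈ s.filter (fun i => ⌊t i⌋ = w),
        ((s.filter fun j => ⌊t j⌋ = ⌊t i⌋).card : ℝ) =
        ((s.filter fun j => ⌊t j⌋ = w).card : ℝ) := by
      intro i hi
      simp only [mem_filter] at hi
      rw [hi.2]
    rw [Finset.sum_congr rfl this, Finset.sum_const, nsmul_eq_mul]
    ring
  rw [hC]
  ring

end Pool.Agent.NUM3
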