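import Pool.Agent.NUM3.Psd

/-!
NUM3/Stab (helper3): abstract assembly of the stability bound (STAB), module O4 of board/ABS.
-/

namespace Pool.Agent.NUM3

open MeasureTheory Finset

variable {ι : Type*} {κ : Type*} [Fintype ι]

/-- number of ordered pairs (diagonal included) in the same class -/
noncomputable def W2 {γ : Type*} [DecidableEq γ] (s : Finset κ) (g : κ → γ) : ℝ :=
  ∑ i ∈ s, ∑ j ∈ s, if g i = g j then (1 : ℝ) else 0

section Classes

variable {γ : Type*} [DecidableEq γ]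

theorem sum_class (s : Finset κ) (g : κ → γ) (e : κ → ℝ) :
    ∑ i ∈ s, ∑ j ∈ s, (if g i = g j then e i * e j else 0) =
      ∑ w ∈ s.image g, (∑ i ∈ s with g i = w, e i) ^ 2 := by
  classical
  rw [← Finset.sum_fiberwise_of_maps_to (s := s) (t := s.image g) (g := g)
    (fun i hi => Finset.mem_image_of_mem _ hi)]
  refine Finset.sum_congr rfl fun w _ => ?_
  rw [sq, Finset.sum_mul]
  refine Finset.sum_congr rfl fun i hi => ?_
  simp only [mem_filter] at hi
  rw [Finset.mul_sum, Finset.sum_filter]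
  refine Finset.sum_congr rfl fun j _ => ?_
  rw [hi.2]
  by_cases h : g j = w
  · simp [h]
  · rw [if_neg h, if_neg (fun h' => h h'.symm)]

theorem W2_eq (s : Finset κ) (g : κ → γ) :
    W2 s g = ∑ w ∈ s.image g, ((s.filter fun i => g i = w).card : ℝ) ^ 2 := by
  have h := sum_class s g (fun _ => 1)
  simp only [mul_one, Finset.sum_const, nsmul_eq_mul] at h
  exact h

theorem W2_nonneg (s : Finset κ) (g : κ → γ) : 0 ≤ W2 s g := by
  rw [W2_eq]
  exact Finset.sum_nonneg fun _ _ => sq_nonneg _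

theorem card_le_W2 (s : Finset κ) (g : κ → γ) : (s.card : ℝ) ≤ W2 s g := by
  classical
  unfold W2
  have : (s.card : ℝ) = ∑ _i ∈ s, (1 : ℝ) := by simp
  rw [this]
  refine Finset.sum_le_sum fun i hi => ?_
  have h := Finset.single_le_sum (f := fun j => if g i = g j then (1 : ℝ) else 0)
    (fun j _ => by split_ifs <;> norm_num) hi
  simpa using h

/-- splitting every window into the two species loses at most a factor two. -/
theorem W2_species (s : Finset κ) (g : κ → γ) (sp : κ → Bool) :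
    W2 s g ≤ 2 * W2 s (fun i => (g i, sp i)) := by
  have h := sum_class s g (fun i => if sp i then (1 : ℝ) else -1)
  have h0 : 0 ≤ ∑ i ∈ s, ∑ j ∈ s, (if g i = g j then
      (if sp i then (1 : ℝ) else -1) * (if sp j then (1 : ℝ) else -1) else 0) := by
    rw [h]; exact Finset.sum_nonneg fun _ _ => sq_nonneg _
  have e : 2 * W2 s (fun i => (g i, sp i)) - W2 s g = ∑ i ∈ s, ∑ j ∈ s, (if g i = g j then
      (if sp i then (1 : ℝ) else -1) * (if sp j then (1 : ℝ) else -1) else 0) := by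
    unfold W2
    rw [Finset.mul_sum, ← Finset.sum_sub_distrib]
    refine Finset.sum_congr rfl fun i _ => ?_
    rw [Finset.mul_sum, ← Finset.sum_sub_distrib]
    refine Finset.sum_congr rfl fun j _ => ?_
    by_cases h1 : g i = g j
    · cases h2 : sp i <;> cases h3 : sp j <;> simp [h1, h2, h3] <;> norm_num
    · simp [h1]
  linarith

/-- class form of the window lemma -/
theorem class_ge [DecidableEq κ] {R : κ → κ → ℝ} {c : ℝ} (s : Finset κ) (g : κ → γ)
    (h0 : ∀ i ∈ s, ∀ j ∈ s, i ≠ j → 0 ≤ R i j)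
    (h1 : ∀ i ∈ s, ∀ j ∈ s, i ≠ j → g i = g j → c ≤ R i j) :
    c * W2 s g - c * s.card ≤ ∑ i ∈ s, ∑ j ∈ s.erase i, R i j := by
  have e : c * W2 s g - c * s.card =
      ∑ i ∈ s, ∑ j ∈ s.erase i, (if g i = g j then c else 0) := by
    unfold W2
    have h2 : ∀ i ∈ s, ∑ j ∈ s.erase i, (if g i = g j then c else 0) =
        c * (∑ j ∈ s, if g i = g j then (1 : ℝ) else 0) - c := by
      intro i hi
      have h3 := Finset.add_sum_erase s (fun j => if g i = g j then c else 0) hi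
      simp only [if_true] at h3
      have h4 : c * (∑ j ∈ s, if g i = g j then (1 : ℝ) else 0) =
          ∑ j ∈ s, if g i = g j then c else 0 := by
        rw [Finset.mul_sum]
        refine Finset.sum_congr rfl fun j _ => ?_
        split_ifs <;> simp
      rw [h4, ← h3]
      ring
    rw [Finset.sum_congr rfl h2, Finset.sum_sub_distrib, ← Finset.mul_sum]
    simp [mul_comm]
  rw [e]
  refine Finset.sum_le_sum fun i hi => Finset.sum_le_sum fun j hj => ?_
  simp only [mem_erase] at hj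
  split_ifs with h
  · exact h1 i hi j hj.2 (Ne.symm hj.1) h
  · exact h0 i hi j hj.2 (Ne.symm hj.1)

end Classes

/-- an exponentially decaying window weight has bounded total mass. -/
theorem exp_mass (F : Finset ℤ) (w : ℤ) :
    ∑ v ∈ F, Real.exp (-|((w - v : ℤ) : ℝ)|) ≤ 4 := by
  classical
  have hr : Real.exp (-1) ≤ 1 / 2 := by
    rw [Real.exp_neg, one_div]
    have := Real.add_one_le_exp (1 : ℝ)
    exact inv_anti₀ (by norm_num) (by linarith)
  have hr0 : 0 < Real.exp (-1) := Real.exp_pos _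
  have h1 : ∀ v : ℤ, Real.exp (-|((w - v : ℤ) : ℝ)|) = Real.exp (-1) ^ (w - v).natAbs := by
    intro v
    have h : (((w - v).natAbs : ℕ) : ℝ) = |((w - v : ℤ) : ℝ)| := by
      rw [Nat.cast_natAbs, Int.cast_abs]
    rw [← Real.exp_nat_mul, h]
    congr 1
    ring
  simp_rw [h1]
  have h2 : ∑ v ∈ F, Real.exp (-1) ^ (w - v).natAbs =
      ∑ k ∈ F.image (fun v => (w - v).natAbs),
        ∑ v ∈ F with (w - v).natAbs = k, Real.exp (-1) ^ (w - v).natAbs :=
    (Finset.sum_fiberwise_of_maps_to (fun v hv => Finset.mem_image_of_mem _ hv) _).symm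
  rw [h2]
  have h3 : ∀ k ∈ F.image (fun v => (w - v).natAbs),
      ∑ v ∈ F with (w - v).natAbs = k, Real.exp (-1) ^ (w - v).natAbs ≤ 2 * (1 / 2) ^ k := by
    intro k _
    have h4 : ∀ v ∈ F.filter (fun v => (w - v).natAbs = k),
        Real.exp (-1) ^ (w - v).natAbs ≤ (1 / 2 : ℝ) ^ k := by
      intro v hv
      simp only [mem_filter] at hv
      rw [hv.2]
      exact pow_le_pow_left₀ hr0.le hr k
    have h5 : (F.filter (fun v => (w - v).natAbs = k)).card ≤ 2 := by
      have : F.filter (fun v => (w - v).natAbs = k) ⊆ {w - k, w + k} := by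
        intro v hv
        simp only [mem_filter] at hv
        simp only [mem_insert, mem_singleton]
        omega
      exact (Finset.card_le_card this).trans Finset.card_le_two
    calc ∑ v ∈ F with (w - v).natAbs = k, Real.exp (-1) ^ (w - v).natAbs
        ≤ ∑ _v ∈ F with (w - _v).natAbs = k, (1 / 2 : ℝ) ^ k := Finset.sum_le_sum h4
      _ = ((F.filter (fun v => (w - v).natAbs = k)).card : ℝ) * (1 / 2) ^ k := by
          rw [Finset.sum_const, nsmul_eq_mul]
      _ ≤ 2 * (1 / 2) ^ k := by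
          have : ((F.filter (fun v => (w - v).natAbs = k)).card : ℝ) ≤ 2 := by exact_mod_cast h5
          exact mul_le_mul_of_nonneg_right this (by positivity)
  refine (Finset.sum_le_sum h3).trans ?_
  rw [← Finset.mul_sum]
  have h6 : ∑ k ∈ F.image (fun v => (w - v).natAbs), (1 / 2 : ℝ) ^ k ≤ 2 := by
    have hs : Summable fun k : ℕ => (1 / 2 : ℝ) ^ k := summable_geometric_two
    calc _ ≤ ∑' k : ℕ, (1 / 2 : ℝ) ^ k := hs.sum_le_tsum _ (fun _ _ => by positivity)
      _ = 2 := tsum_geometric_two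
  linarith

/-- Schur test over windows -/
theorem exp_window (s : Finset κ) (g : κ → ℤ) :
    ∑ i ∈ s, ∑ j ∈ s, Real.exp (-|((g i - g j : ℤ) : ℝ)|) ≤ 4 * W2 s g := by
  classical
  set n : ℤ → ℝ := fun w => ((s.filter fun i => g i = w).card : ℝ) with hn
  have h1 : ∑ i ∈ s, ∑ j ∈ s, Real.exp (-|((g i - g j : ℤ) : ℝ)|) =
      ∑ w ∈ s.image g, ∑ v ∈ s.image g, n w * n v * Real.exp (-|((w - v : ℤ) : ℝ)|) := by
    rw [← Finset.sum_fiberwise_of_maps_to (s := s) (t := s.image g) (g := g)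
      (fun i hi => Finset.mem_image_of_mem _ hi)]
    refine Finset.sum_congr rfl fun w _ => ?_
    have h2 : ∀ i ∈ s.filter (fun i => g i = w),
        ∑ j ∈ s, Real.exp (-|((g i - g j : ℤ) : ℝ)|) =
        ∑ v ∈ s.image g, n v * Real.exp (-|((w - v : ℤ) : ℝ)|) := by
      intro i hi
      simp only [mem_filter] at hi
      rw [hi.2, ← Finset.sum_fiberwise_of_maps_to (s := s) (t := s.image g) (g := g)
        (fun i hi => Finset.mem_image_of_mem _ hi)]
      refine Finset.sum_congr rfl fun v _ => ?_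
      have : ∀ j ∈ s.filter (fun j => g j = v), Real.exp (-|((w - g j : ℤ) : ℝ)|) =
          Real.exp (-|((w - v : ℤ) : ℝ)|) := by
        intro j hj
        simp only [mem_filter] at hj
        rw [hj.2]
      rw [Finset.sum_congr rfl this, Finset.sum_const, nsmul_eq_mul]
    rw [Finset.sum_congr rfl h2, Finset.sum_const, nsmul_eq_mul, Finset.mul_sum]
    refine Finset.sum_congr rfl fun v _ => ?_
    simp only [hn]
    ring
  rw [h1]
  have h3 : ∀ w ∈ s.image g, ∀ v ∈ s.image g,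
      n w * n v * Real.exp (-|((w - v : ℤ) : ℝ)|) ≤
      (n w ^ 2 * Real.exp (-|((w - v : ℤ) : ℝ)|)) / 2 +
        (n v ^ 2 * Real.exp (-|((v - w : ℤ) : ℝ)|)) / 2 := by
    intro w _ v _
    have h4 : Real.exp (-|((v - w : ℤ) : ℝ)|) = Real.exp (-|((w - v : ℤ) : ℝ)|) := by
      push_cast
      rw [abs_sub_comm]
    rw [h4]
    have h5 := Real.exp_pos (-|((w - v : ℤ) : ℝ)|)
    have h6 := sq_nonneg (n w - n v)
    nlinarith
  refine (Finset.sum_le_sum fun w hw => Finset.sum_le_sum fun v hv => h3 w hw v hv).trans ?_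
  simp_rw [Finset.sum_add_distrib]
  have h7 : ∑ w ∈ s.image g, ∑ v ∈ s.image g,
      (n v ^ 2 * Real.exp (-|((v - w : ℤ) : ℝ)|)) / 2 =
      ∑ w ∈ s.image g, ∑ v ∈ s.image g,
      (n w ^ 2 * Real.exp (-|((w - v : ℤ) : ℝ)|)) / 2 := Finset.sum_comm
  rw [h7, W2_eq, Finset.mul_sum, ← Finset.sum_add_distrib]
  refine Finset.sum_le_sum fun w _ => ?_
  have h8 : ∑ v ∈ s.image g, (n w ^ 2 * Real.exp (-|((w - v : ℤ) : ℝ)|)) / 2 =
      n w ^ 2 / 2 * ∑ v ∈ s.image g, Real.exp (-|((w - v : ℤ) : ℝ)|) := by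
    rw [Finset.mul_sum]
    refine Finset.sum_congr rfl fun v _ => ?_
    ring
  rw [h8]
  have h9 := exp_mass (s.image g) w
  have h10 : 0 ≤ n w ^ 2 := sq_nonneg _
  have : n w ^ 2 = ((s.filter fun i => g i = w).card : ℝ) ^ 2 := by simp only [hn]
  rw [← this]
  nlinarith

/-- the two species block form -/
theorem block_psd {qs qc : ι → ι → ℝ} (hsym : ∀ a b, qc a b = qc b a)
    (hp : ∀ u : ι → ℝ, 0 ≤ ∑ a, ∑ b, (qs a b + qc a b) * u a * u b)
    (hm : ∀ u : ι → ℝ, 0 ≤ ∑ a, ∑ b, (qs a b - qc a b) * u a * u b)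
    (x : ι × Bool → ℝ) :
    0 ≤ ∑ p, ∑ r, (if p.2 = r.2 then qs p.1 r.1 else qc p.1 r.1) * x p * x r := by
  have e : ∑ p : ι × Bool, ∑ r : ι × Bool,
      (if p.2 = r.2 then qs p.1 r.1 else qc p.1 r.1) * x p * x r =
      (1 / 2) * (∑ a, ∑ b, (qs a b + qc a b) * (x (a, true) + x (a, false)) *
        (x (b, true) + x (b, false))) +
      (1 / 2) * (∑ a, ∑ b, (qs a b - qc a b) * (x (a, true) - x (a, false)) *
        (x (b, true) - x (b, false))) := by
    rw [Fintype.sum_prod_type]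
    simp_rw [Fintype.sum_prod_type, Fintype.sum_bool]
    have h1 : ∑ a, ∑ b, qc a b * x (a, false) * x (b, true) =
        ∑ a, ∑ b, qc a b * x (a, true) * x (b, false) := by
      rw [Finset.sum_comm]
      refine Finset.sum_congr rfl fun a _ => Finset.sum_congr rfl fun b _ => ?_
      rw [hsym b a]
      ring
    rw [Finset.mul_sum, Finset.mul_sum, ← Finset.sum_add_distrib]
    refine Finset.sum_congr rfl fun a _ => ?_
    simp only [Finset.mul_sum]
    rw [← Finset.sum_add_distrib, ← Finset.sum_add_distrib]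
    refine Finset.sum_congr rfl fun b _ => ?_
    simp
    ring
  rw [e]
  have h1 := hp (fun a => x (a, true) + x (a, false))
  have h2 := hm (fun a => x (a, true) - x (a, false))
  linarith

/-- **abstract stability bound.** -/
theorem stab [DecidableEq κ] (s : Finset κ) (a : κ → ι) (sp : κ → Bool) (t : κ → ℝ)
    (m core : κ → κ → ℝ) {δ c0 Cc B ε : ℝ} {Ns Nc qs qc : ι → ι → ℝ → ℝ}
    (hm : ∀ i ∈ s, ∀ j ∈ s, i ≠ j → core i j +
      (if sp i = sp j then Ns (a i) (a j) (t i - t j) + FK qs (a i) (a j) (t i - t j)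
        else Nc (a i) (a j) (t i - t j) + FK qc (a i) (a j) (t i - t j)) -
      δ * Real.exp (-|((⌊t i⌋ - ⌊t j⌋ : ℤ) : ℝ)|) - ε ≤ m i j)
    (hcore : -Cc ≤ ∑ i ∈ s, ∑ j ∈ s.erase i, core i j)
    (hδ : 0 ≤ δ) (hδc : 16 * δ ≤ c0) (hε : 0 ≤ ε)
    (hNs0 : ∀ b d x, 0 ≤ Ns b d x) (hNs1 : ∀ b d x, |x| ≤ 1 → c0 ≤ Ns b d x)
    (hNc0 : ∀ b d x, 0 ≤ Nc b d x)
    (hsym : ∀ k : ℝ, 0 < k → ∀ b d, qc b d k = qc d b k)
    (hp : ∀ k : ℝ, 0 < k → ∀ u : ι → ℝ, 0 ≤ ∑ b, ∑ d, (qs b d k + qc b d k) * u b * u d)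
    (hq : ∀ k : ℝ, 0 < k → ∀ u : ι → ℝ, 0 ≤ ∑ b, ∑ d, (qs b d k - qc b d k) * u b * u d)
    (his : ∀ b d, IntegrableOn (qs b d) (Set.Ioi 0))
    (hic : ∀ b d, IntegrableOn (qc b d) (Set.Ioi 0))
    (hB : ∀ b, FK qs b b 0 ≤ B) :
    c0 / 4 * W2 s (fun i => ⌊t i⌋) - (c0 + B) * s.card - Cc - ε * (s.card : ℝ) ^ 2 ≤
      ∑ i ∈ s, ∑ j ∈ s.erase i, m i j := by
  classical
  -- the combined kinds
  set q : ι × Bool → ι × Bool → ℝ → ℝ := fun p r k =>
    if p.2 = r.2 then qs p.1 r.1 k else qc p.1 r.1 k with hqdef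
  have hFK : ∀ i j, FK q (a i, sp i) (a j, sp j) (t i - t j) =
      if sp i = sp j then FK qs (a i) (a j) (t i - t j) else FK qc (a i) (a j) (t i - t j) := by
    intro i j
    unfold FK
    simp only [hqdef]
    split_ifs with h <;> simp
  have hpsd := pairs_ge (q := q) (fun k hk x => by
      have := block_psd (qs := fun b d => qs b d k) (qc := fun b d => qc b d k)
        (hsym k hk) (hp k hk) (hq k hk) x
      simpa [hqdef] using this)
    (fun p r => by
      simp only [hqdef]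
      by_cases h : p.2 = r.2
      · simpa [h] using his p.1 r.1
      · simpa [h] using hic p.1 r.1) s (fun i => (a i, sp i)) t
  have hself : ∑ i ∈ s, FK q (a i, sp i) (a i, sp i) 0 ≤ B * s.card := by
    have : ∀ i ∈ s, FK q (a i, sp i) (a i, sp i) 0 ≤ B := by
      intro i _
      have h := hFK i i
      simp only [sub_self, if_true] at h
      rw [h]
      exact hB _
    calc _ ≤ ∑ _i ∈ s, B := Finset.sum_le_sum this
      _ = B * s.card := by rw [Finset.sum_const, nsmul_eq_mul, mul_comm]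
  -- the pointwise part
  have hN := class_ge (R := fun i j => if sp i = sp j then Ns (a i) (a j) (t i - t j)
      else Nc (a i) (a j) (t i - t j)) (c := c0) s (fun i => (⌊t i⌋, sp i))
    (fun i _ j _ _ => by
      split_ifs
      · exact hNs0 _ _ _
      · exact hNc0 _ _ _)
    (fun i _ j _ _ h => by
      simp only [Prod.mk.injEq] at h
      rw [if_pos h.2]
      exact hNs1 _ _ _ (Int.abs_sub_lt_one_of_floor_eq_floor h.1).le)
  have hW := W2_species s (fun i => ⌊t i⌋) sp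
  have hE := exp_window s (fun i => ⌊t i⌋)
  have hE' : ∑ i ∈ s, ∑ j ∈ s.erase i, δ * Real.exp (-|((⌊t i⌋ - ⌊t j⌋ : ℤ) : ℝ)|) ≤
      4 * δ * W2 s (fun i => ⌊t i⌋) := by
    have h1 : ∑ i ∈ s, ∑ j ∈ s.erase i, δ * Real.exp (-|((⌊t i⌋ - ⌊t j⌋ : ℤ) : ℝ)|) ≤
        ∑ i ∈ s, ∑ j ∈ s, δ * Real.exp (-|((⌊t i⌋ - ⌊t j⌋ : ℤ) : ℝ)|) := by
      refine Finset.sum_le_sum fun i _ => ?_
      exact Finset.sum_le_sum_of_subset_of_nonneg (Finset.erase_subset _ _)
        fun j _ _ => mul_nonneg hδ (Real.exp_pos _).le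
    have h2 : ∑ i ∈ s, ∑ j ∈ s, δ * Real.exp (-|((⌊t i⌋ - ⌊t j⌋ : ℤ) : ℝ)|) =
        δ * ∑ i ∈ s, ∑ j ∈ s, Real.exp (-|((⌊t i⌋ - ⌊t j⌋ : ℤ) : ℝ)|) := by
      rw [Finset.mul_sum]
      refine Finset.sum_congr rfl fun i _ => ?_
      rw [Finset.mul_sum]
    rw [h2] at h1
    have h3 := mul_le_mul_of_nonneg_left hE hδ
    linarith
  have hsum : ∑ i ∈ s, ∑ j ∈ s.erase i, (core i j +
      ((if sp i = sp j then Ns (a i) (a j) (t i - t j) else Nc (a i) (a j) (t i - t j)) +
        FK q (a i, sp i) (a j, sp j) (t i - t j)) -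
      δ * Real.exp (-|((⌊t i⌋ - ⌊t j⌋ : ℤ) : ℝ)|) - ε) ≤ ∑ i ∈ s, ∑ j ∈ s.erase i, m i j := by
    refine Finset.sum_le_sum fun i hi => Finset.sum_le_sum fun j hj => ?_
    simp only [mem_erase] at hj
    have h := hm i hi j hj.2 (Ne.symm hj.1)
    rw [hFK i j]
    refine le_trans (le_of_eq ?_) h
    split_ifs <;> ring
  have hεs : ∑ i ∈ s, ∑ _j ∈ s.erase i, ε ≤ ε * (s.card : ℝ) ^ 2 := by
    have h1 : ∀ i ∈ s, ∑ _j ∈ s.erase i, ε ≤ ε * s.card := by
      intro i _
      rw [Finset.sum_const, nsmul_eq_mul, mul_comm]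
      refine mul_le_mul_of_nonneg_left ?_ hε
      exact_mod_cast Finset.card_erase_le
    calc ∑ i ∈ s, ∑ _j ∈ s.erase i, ε ≤ ∑ _i ∈ s, ε * s.card := Finset.sum_le_sum h1
      _ = ε * (s.card : ℝ) ^ 2 := by
          rw [Finset.sum_const, nsmul_eq_mul]
          ring
  simp only [Finset.sum_sub_distrib, Finset.sum_add_distrib] at hsum
  have hW0 := W2_nonneg s (fun i => ⌊t i⌋)
  have hc0 : 0 ≤ c0 := by linarith
  have hcW := mul_le_mul_of_nonneg_left hW hc0
  have hδW := mul_le_mul_of_nonneg_right hδc hW0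
  nlinarith

end Pool.Agent.NUM3
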