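import Pool.Agent.NUM3.En
import Pool.Agent.NUO.StabTab
import Pool.Agent.NUO.DirEq
import Pool.Agent.NUO.DirP7

/-!
# NUM3/StabInst (helper3): the stability bound for the objects of helper2's `NUO.Obj`

`stab_obj`: for the responses `R : Resp sX sY τ` (own species, other species, current source) and the
certificates `C : Certs c0`,
`c0/4 W2 - C1 r - C1 r² d - cores ≤ ∑_{i ≠ j} (- log pairN - ER)`, ordered pairs.
-/

set_option autoImplicit false

open MeasureTheory Set Finset

namespace Pool.Agent.NUM3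

noncomputable section

open NUMH NUO NUDispO NUSB NUStabT
open NUMF (sk)

/-- kinds of the base kinds -/
def kb : B → Kind
  | .L => .L
  | .T => .St
  | .S => .S
  | .V => .Svv

theorem PQ_sk (k : ℝ) : 2 / (k * sk k) = PQ k := by
  unfold PQ
  rw [sk_eq]
  rfl

theorem qM_same_base (a b : B) (k : ℝ) : qM true (kb a) (kb b) k = mS a b k := by
  unfold qM mS
  rw [PQ_sk]
  have : NUMH.zk k = NUSB.zk k := rfl
  rw [this]
  cases a <;> cases b <;> simp [ext2, dec, kb, cbs, κs]

theorem qM_opp_base (a b : B) (k : ℝ) : qM false (kb a) (kb b) k = mC a b k := by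
  unfold qM mC
  rw [PQ_sk]
  have : NUMH.zk k = NUSB.zk k := rfl
  rw [this]
  cases a <;> cases b <;> simp [ext2, dec, kb, cbc, κc]

theorem qM_same (κ κ' : Kind) (k : ℝ) : qM true κ κ' k = NUStabT.ext (fun p q => mS p q k) κ κ' := by
  have h := fun a b => qM_same_base a b k
  unfold qM at h ⊢
  cases κ <;> cases κ' <;> simp only [NUStabT.ext, om, bk, List.map_cons, List.map_nil, List.sum_cons,
    List.sum_nil, ← h, ext2, dec, kb, if_true] <;> ring

theorem qM_opp (κ κ' : Kind) (k : ℝ) : qM false κ κ' k = NUStabT.ext (fun p q => mC p q k) κ κ' := by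
  have h := fun a b => qM_opp_base a b k
  unfold qM at h ⊢
  cases κ <;> cases κ' <;> simp only [NUStabT.ext, om, bk, List.map_cons, List.map_nil, List.sum_cons,
    List.sum_nil, ← h, ext2, dec, kb, Bool.false_eq_true, if_false] <;> ring

/-- inverse transform of a bilinear extension -/
theorem IT_ext {m : B → B → ℝ → ℝ} (h : ∀ a b, IntegrableOn (m a b) (Ioi 0)) (κ κ' : Kind) (x : ℝ) :
    IT (fun k => NUStabT.ext (fun p q => m p q k) κ κ') x = NUStabT.ext (fun p q => IT (m p q) x) κ κ' := by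
  have h2 : ∀ a b c d : B, IT (fun k => m a b k + m c d k) x = IT (m a b) x + IT (m c d) x :=
    fun a b c d => IT_add (h a b) (h c d) x
  have h4 : ∀ a b c d e f g i : B, IT (fun k => (m a b k + m c d k) + (m e f k + m g i k)) x =
      (IT (m a b) x + IT (m c d) x) + (IT (m e f) x + IT (m g i) x) := by
    intro a b c d e f g i
    rw [IT_add (m := fun k => m a b k + m c d k) (m' := fun k => m e f k + m g i k)
      ((h a b).add (h c d)) ((h e f).add (h g i)), h2, h2]
  have hs : ∀ (c : ℝ) (f : ℝ → ℝ), IT (fun k => c * f k) x = c * IT f x := fun c f => IT_smul c x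
  cases κ <;> cases κ' <;> simp only [NUStabT.ext, om, bk, List.map_cons, List.map_nil, List.sum_cons,
    List.sum_nil, add_zero, hs, h2, h4]

variable {sX sY τ : Kind → ℝ → ℝ}

theorem int_mS (R : Resp sX sY τ) (a b : B) : IntegrableOn (mS a b) (Ioi 0) := by
  have h := (pair_id R true (kb a) (kb b)).1
  refine h.congr (Filter.Eventually.of_forall fun k => ?_)
  exact qM_same_base a b k

theorem int_mC (R : Resp sX sY τ) (a b : B) : IntegrableOn (mC a b) (Ioi 0) := by
  have h := (pair_id R false (kb a) (kb b)).1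
  refine h.congr (Filter.Eventually.of_forall fun k => ?_)
  exact qM_opp_base a b k

/-- the dressed kernels of `StabTab` are the kernels of `pair_id` -/
theorem pair_RK (R : Resp sX sY τ) (σ : Bool) (κ κ' : Kind) (x y : ℝ) :
    Dr 8 (9 / 4) (1 / 4) σ κ κ' (x - y) - ER sX sY τ σ κ κ' x y =
      if σ then RsK κ κ' (x - y) else RcK κ κ' (x - y) := by
  rw [(pair_id R σ κ κ').2 x y]
  rcases σ
  · rw [if_neg (by simp)]
    unfold RcK
    rw [← IT_ext (int_mC R)]
    unfold IT
    simp_rw [qM_opp]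
  · rw [if_pos rfl]
    unfold RsK
    rw [← IT_ext (int_mS R)]
    unfold IT
    simp_rw [qM_same]

/-- **the stability bound for objects in exact positions**, ordered pairs -/
theorem stab_obj (R : Resp sX sY τ) {c0 : ℝ} (C : Certs c0) (hc0 : 0 ≤ c0) :
    ∃ C1 : ℝ, 0 ≤ C1 ∧ ∀ (P : Par) (r : ℕ), P.e = 1 / 4 → P.jL = 9 / 4 → NUDirP.Small 8 P r →
      ∀ O : Fin r → Xo, (∀ i j, i ≠ j → 0 < pairN P O i j) →
      c0 / 4 * W2 univ (fun i => ⌊ht (O i)⌋) - C1 * r -
        (4 * NUDirP.nk O .S * Real.log (r * (2 + 2 / (2 ^ 8 * (P.d r * NUP1.l / r)))) +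
          4 * NUDirP.nk O .Sv * (1 + Real.log r)) - C1 * P.d r * (r : ℝ) ^ 2 ≤
      ∑ i, ∑ j ∈ univ.erase i, (-Real.log (pairN P O i j) -
        ER sX sY τ (sp (O i) == sp (O j)) (kd (O i)) (kd (O j)) (ht (O i)) (ht (O j))) := by
  obtain ⟨Bk, hBk, H⟩ := stab_kinds
  obtain ⟨M, hM1, hM2⟩ : ∃ M : ℝ, c0 + Bk ≤ M ∧ 1800 * 2 ^ 8 ≤ M :=
    ⟨max (c0 + Bk) (1800 * 2 ^ 8), le_max_left _ _, le_max_right _ _⟩
  refine ⟨M, le_trans (by positivity) hM1, ?_⟩
  intro P r he hj hS O hpos
  have hd := hS.d0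
  have h := H C hc0 (univ : Finset (Fin r)) (fun i => kd (O i)) (fun i => sp (O i))
    (fun i => ht (O i)) (fun i j => -Real.log (pairN P O i j) -
      ER sX sY τ (sp (O i) == sp (O j)) (kd (O i)) (kd (O j)) (ht (O i)) (ht (O j)))
    (fun i j => NUDirP.coreP 8 P O i j) (ε := 1800 * 2 ^ 8 * P.d r) (by positivity) ?_
    (NUDirP.core_sum hS O)
  · refine le_trans ?_ h
    rw [Finset.card_univ, Fintype.card_fin]
    have h1 : (c0 + Bk) * (r : ℝ) ≤ M * r := mul_le_mul_of_nonneg_right hM1 (Nat.cast_nonneg r)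
    have h2 : 1800 * 2 ^ 8 * P.d r * (r : ℝ) ^ 2 ≤ M * P.d r * (r : ℝ) ^ 2 := by gcongr
    refine sub_le_sub (sub_le_sub_right (sub_le_sub_left h1 _) _) h2
  · intro i _ j _ hij
    have h1 := NUDirP.dir_ge (K := 8) (by norm_num) NUDirP.good_2_18 (P := P) (by rw [he]; norm_num)
      (by rw [hj]; norm_num) hS O hij (hpos i j hij)
    rw [Rdir_eq_Dr_std] at h1
    have h2 := pair_RK R (sp (O i) == sp (O j)) (kd (O i)) (kd (O j)) (ht (O i)) (ht (O j))
    have h3 : (if sp (O i) = sp (O j) then RsK (kd (O i)) (kd (O j)) (ht (O i) - ht (O j))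
        else RcK (kd (O i)) (kd (O j)) (ht (O i) - ht (O j))) =
        if (sp (O i) == sp (O j)) = true then RsK (kd (O i)) (kd (O j)) (ht (O i) - ht (O j))
        else RcK (kd (O i)) (kd (O j)) (ht (O i) - ht (O j)) := by
      by_cases hs : sp (O i) = sp (O j)
      · simp [hs]
      · simp [hs]
    rw [h3, ← h2]
    linarith

end

end Pool.Agent.NUM3
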