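import Pool.Agent.NUM3.StabInst
import Pool.Agent.NUO.SlackN

/-!
# NUM3/Tab4 (helper3): the table of the stability certificates, design D1 (helper25)

`Certs4 c0 nLL nTT nLS nTS`: the couplings `L-L`, `T-T`, `L-S`, `T-S` are split into a pointwise part
`n..` and a positive definite part; conclusion as in `NUStabT.stab_kinds`.
-/

set_option autoImplicit false

open MeasureTheory Set

namespace Pool.Agent.NUM3

noncomputable section

open NUMH (B Ms Mc PP)
open NUPosK (PK)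
open NUSB NUStabT NUO NUDispO

theorem sum_kind (f : Kind → ℝ) : ∑ a, f a = f .L + (f .St + (f .S + (f .Sv + f .Svv))) := by
  have h : (Finset.univ : Finset Kind) = {.L, .St, .S, .Sv, .Svv} := rfl
  rw [h, Finset.sum_insert (by decide), Finset.sum_insert (by decide), Finset.sum_insert (by decide),
    Finset.sum_insert (by decide), Finset.sum_singleton]

/-- the conclusion of the table: ordered pairs, `RsK`, `RcK` of `StabTab` -/
def KB (c0 Bk : ℝ) : Prop := ∀ {κ : Type} [DecidableEq κ] (s : Finset κ) (a : κ → Kind)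
    (sp : κ → Bool) (t : κ → ℝ) (m core : κ → κ → ℝ) {Cc ε : ℝ}, 0 ≤ ε →
    (∀ i ∈ s, ∀ j ∈ s, i ≠ j → core i j +
      (if sp i = sp j then RsK (a i) (a j) (t i - t j) else RcK (a i) (a j) (t i - t j)) - ε
        ≤ m i j) →
    -Cc ≤ ∑ i ∈ s, ∑ j ∈ s.erase i, core i j →
    c0 / 4 * W2 s (fun i => ⌊t i⌋) - (c0 + Bk) * s.card - Cc - ε * (s.card : ℝ) ^ 2 ≤
      ∑ i ∈ s, ∑ j ∈ s.erase i, m i j

/-- the positive definite part, same species -/
def QS (nLL nTT nLS nTS : ℝ → ℝ) : B → B → ℝ → ℝ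
  | .L, .L => fun k => mS .L .L k - nLL k
  | .T, .T => fun k => mS .T .T k - nTT k
  | .L, .S => fun k => mS .L .S k - nLS k
  | .S, .L => fun k => mS .L .S k - nLS k
  | .T, .S => fun k => mS .T .S k - nTS k
  | .S, .T => fun k => mS .T .S k - nTS k
  | .S, .S => alphaK
  | .S, .V => betaK
  | .V, .S => betaK
  | .V, .V => gamK
  | _, _ => fun _ => 0

/-- the cross part -/
def QC : B → B → ℝ → ℝ
  | .S, .S => fun k => -gK k
  | .S, .V => fun k => wK k * gK k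
  | .V, .S => fun k => wK k * gK k
  | .V, .V => fun k => -(wK k ^ 2 * gK k)
  | _, _ => fun _ => 0

/-- **the certificates, design D1** -/
structure Certs4 (c0 : ℝ) (nLL nTT nLS nTS : ℝ → ℝ) : Prop where
  LT : PK (mS .L .T)
  LV : PK (mS .L .V)
  TV : PK (mS .T .V)
  N : PK nK
  LL : PK nLL
  TT : PK nTT
  LS : PK nLS
  TS : PK nTS
  LT1 : ∀ x, |x| ≤ 1 → c0 ≤ IT (mS .L .T) x
  LV1 : ∀ x, |x| ≤ 1 → c0 ≤ IT (mS .L .V) x
  TV1 : ∀ x, |x| ≤ 1 → c0 ≤ IT (mS .T .V) x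
  N1 : ∀ x, |x| ≤ 1 → c0 ≤ IT nK x
  LL1 : ∀ x, |x| ≤ 1 → c0 ≤ IT nLL x
  TT1 : ∀ x, |x| ≤ 1 → c0 ≤ IT nTT x
  LS1 : ∀ x, |x| ≤ 1 → c0 ≤ IT nLS x
  TS1 : ∀ x, |x| ≤ 1 → c0 ≤ IT nTS x
  xLL : PK (mC .L .L)
  xLT : PK (mC .L .T)
  xTT : PK (mC .T .T)
  xLS : PK (mC .L .S)
  xLV : PK (mC .L .V)
  xTS : PK (mC .T .S)
  xTV : PK (mC .T .V)
  xSS : PK fun k => mC .S .S k + gK k
  xSV : PK fun k => mC .S .V k - wK k * gK k
  xVV : PK fun k => mC .V .V k + wK k ^ 2 * gK k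
  form : ∀ k : ℝ, 0 < k → ∀ xL xT s v : ℝ, 0 ≤ (mS .L .L k - nLL k) * xL ^ 2 +
    (mS .T .T k - nTT k) * xT ^ 2 + 2 * (mS .L .S k - nLS k) * xL * s +
    2 * (mS .T .S k - nTS k) * xT * s + (alphaK k - gK k) * s ^ 2 +
    2 * (betaK k + wK k * gK k) * s * v + (gamK k - wK k ^ 2 * gK k) * v ^ 2

variable {c0 : ℝ} {nLL nTT nLS nTS : ℝ → ℝ}

theorem int_QS (C : Certs4 c0 nLL nTT nLS nTS) (hi : ∀ a b, IntegrableOn (mS a b) (Ioi 0)) (a b : B) :
    IntegrableOn (QS nLL nTT nLS nTS a b) (Ioi 0) := by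
  cases a <;> cases b <;> simp only [QS] <;>
    first
    | exact (hi _ _).sub C.LL.1
    | exact (hi _ _).sub C.TT.1
    | exact (hi _ _).sub C.LS.1
    | exact (hi _ _).sub C.TS.1
    | exact int_alpha
    | exact int_beta
    | exact int_gam
    | exact integrableOn_zero

theorem int_QC (a b : B) : IntegrableOn (QC a b) (Ioi 0) := by
  cases a <;> cases b <;> simp only [QC] <;>
    first
    | exact int_g.neg
    | exact int_wg
    | exact int_wwg.neg
    | exact integrableOn_zero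

theorem IT_sub {m m' : ℝ → ℝ} (h : IntegrableOn m (Ioi 0)) (h' : IntegrableOn m' (Ioi 0)) (x : ℝ) :
    IT (fun k => m k - m' k) x = IT m x - IT m' x := by
  have h1 := IT_add (m := m) (m' := fun k => -m' k) h h'.neg x
  rw [IT_neg] at h1
  rw [sub_eq_add_neg, ← h1]
  congr 1

theorem IT_zero (x : ℝ) : IT (fun _ => 0) x = 0 := by
  unfold IT; simp

theorem int_list {α : Type*} (L : List α) {f : α → ℝ → ℝ} (h : ∀ a, IntegrableOn (f a) (Ioi 0)) :
    IntegrableOn (fun k => (L.map fun a => f a k).sum) (Ioi 0) := by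
  induction L with
  | nil => simp
  | cons a L ih =>
    simp only [List.map_cons, List.sum_cons]
    exact (h a).add ih

theorem int_ext {Q : B → B → ℝ → ℝ} (h : ∀ a b, IntegrableOn (Q a b) (Ioi 0)) (b d : Kind) :
    IntegrableOn (fun k => NUStabT.ext (fun p q => Q p q k) b d) (Ioi 0) := by
  unfold NUStabT.ext
  exact (int_list (bk b) fun p => int_list (bk d) fun q => h p q).const_mul _

/-- kernels on the kinds -/
theorem FK_ext {Q : B → B → ℝ → ℝ} (h : ∀ a b, IntegrableOn (Q a b) (Ioi 0)) (b d : Kind) (x : ℝ) :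
    FK (fun b d k => NUStabT.ext (fun p q => Q p q k) b d) b d x =
      NUStabT.ext (fun p q => IT (Q p q) x) b d := IT_ext h b d x

theorem int_nK : IntegrableOn nK (Ioi 0) := NUSlk.NN_integrable

theorem IT_SS (x : ℝ) : IT (mS .S .S) x = IT alphaK x + IT nK x := by
  rw [← IT_add int_alpha int_nK]
  congr 1; funext k; exact mS_SS k

theorem IT_SV (x : ℝ) : IT (mS .S .V) x = IT betaK x + IT nK x := by
  rw [← IT_add int_beta int_nK]; congr 1; funext k; exact mS_SV k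

theorem IT_VV (x : ℝ) : IT (mS .V .V) x = IT gamK x + IT nK x := by
  rw [← IT_add int_gam int_nK]; congr 1; funext k; exact mS_VV k

theorem same4_ge (C : Certs4 c0 nLL nTT nLS nTS) (hi : ∀ a b, IntegrableOn (mS a b) (Ioi 0))
    (b d : Kind) (x c : ℝ) (hLL : c ≤ IT nLL x) (hLT : c ≤ IT (mS .L .T) x)
    (hTT : c ≤ IT nTT x) (hLS : c ≤ IT nLS x) (hLV : c ≤ IT (mS .L .V) x)
    (hTS : c ≤ IT nTS x) (hTV : c ≤ IT (mS .T .V) x) (hN : c ≤ IT nK x) :
    c + NUStabT.ext (fun p q => IT (QS nLL nTT nLS nTS p q) x) b d ≤ RsK b d x := by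
  have e1 := IT_SS x
  have e2 := IT_SV x
  have e3 := IT_VV x
  have e4 := mS_symm .T .L
  have e5 := mS_symm .S .L
  have e6 := mS_symm .V .L
  have e7 := mS_symm .S .T
  have e8 := mS_symm .V .T
  have e9 := mS_symm .V .S
  have f1 := IT_sub (hi .L .L) C.LL.1 x
  have f2 := IT_sub (hi .T .T) C.TT.1 x
  have f3 := IT_sub (hi .L .S) C.LS.1 x
  have f4 := IT_sub (hi .T .S) C.TS.1 x
  cases b <;> cases d <;> simp only [RsK, NUStabT.ext, om, bk, QS, List.map_cons, List.map_nil,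
    List.sum_cons, List.sum_nil, e4, e5, e6, e7, e8, e9, e1, e2, e3, f1, f2, f3, f4, IT_zero] <;>
    linarith

theorem cross4_ge (C : Certs4 c0 nLL nTT nLS nTS) (b d : Kind) (x : ℝ) :
    NUStabT.ext (fun p q => IT (QC p q) x) b d ≤ RcK b d x := by
  have iSS : IntegrableOn (mC .S .S) (Ioi 0) := by
    refine (C.xSS.1.sub int_g).congr (Filter.Eventually.of_forall fun k => ?_)
    simp
  have iSV : IntegrableOn (mC .S .V) (Ioi 0) := by
    refine (C.xSV.1.add int_wg).congr (Filter.Eventually.of_forall fun k => ?_)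
    simp
  have iVV : IntegrableOn (mC .V .V) (Ioi 0) := by
    refine (C.xVV.1.sub int_wwg).congr (Filter.Eventually.of_forall fun k => ?_)
    simp
  have a1 : 0 ≤ IT (mC .S .S) x + IT gK x := by
    rw [← IT_add iSS int_g]; exact C.xSS.2 x
  have a2 : 0 ≤ IT (mC .S .V) x - IT (fun k => wK k * gK k) x := by
    rw [← IT_sub iSV int_wg]; exact C.xSV.2 x
  have a3 : 0 ≤ IT (mC .V .V) x + IT (fun k => wK k ^ 2 * gK k) x := by
    rw [← IT_add iVV int_wwg]; exact C.xVV.2 x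
  have b1 : 0 ≤ IT (mC .L .L) x := C.xLL.2 x
  have b2 : 0 ≤ IT (mC .L .T) x := C.xLT.2 x
  have b3 : 0 ≤ IT (mC .T .T) x := C.xTT.2 x
  have b4 : 0 ≤ IT (mC .L .S) x := C.xLS.2 x
  have b5 : 0 ≤ IT (mC .L .V) x := C.xLV.2 x
  have b6 : 0 ≤ IT (mC .T .S) x := C.xTS.2 x
  have b7 : 0 ≤ IT (mC .T .V) x := C.xTV.2 x
  have e4 := mC_symm .T .L
  have e5 := mC_symm .S .L
  have e6 := mC_symm .V .L
  have e7 := mC_symm .S .T
  have e8 := mC_symm .V .T
  have e9 := mC_symm .V .S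
  have n1 : IT (fun k => -gK k) x = -IT gK x := IT_neg x
  have n2 : IT (fun k => -(wK k ^ 2 * gK k)) x = -IT (fun k => wK k ^ 2 * gK k) x := IT_neg x
  cases b <;> cases d <;> simp only [RcK, NUStabT.ext, om, bk, QC, List.map_cons, List.map_nil,
    List.sum_cons, List.sum_nil, e4, e5, e6, e7, e8, e9, n1, n2, IT_zero] <;> linarith

/-- **stability bound for the kinds, design D1** -/
theorem stab_kinds4 (C : Certs4 c0 nLL nTT nLS nTS) (hi : ∀ a b, IntegrableOn (mS a b) (Ioi 0))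
    (hc0 : 0 ≤ c0) : ∃ Bk : ℝ, 0 ≤ Bk ∧ KB c0 Bk := by
  set qs : Kind → Kind → ℝ → ℝ := fun b d k => NUStabT.ext (fun p q => QS nLL nTT nLS nTS p q k) b d
    with hqs
  set qc : Kind → Kind → ℝ → ℝ := fun b d k => NUStabT.ext (fun p q => QC p q k) b d with hqc
  refine ⟨∑ b, |FK qs b b 0|, by positivity, ?_⟩
  intro κ _ s a sp t m core Cc ε hε hm hcore
  have hs : ∀ b d x, FK qs b d x = NUStabT.ext (fun p q => IT (QS nLL nTT nLS nTS p q) x) b d :=
    fun b d x => FK_ext (int_QS C hi) b d x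
  have hc : ∀ b d x, FK qc b d x = NUStabT.ext (fun p q => IT (QC p q) x) b d :=
    fun b d x => FK_ext int_QC b d x
  have hform : ∀ (k : ℝ) (u : Kind → ℝ) (σ : ℝ), ∑ b, ∑ d, (qs b d k + σ * qc b d k) * u b * u d =
      (mS .L .L k - nLL k) * (u .L) ^ 2 +
      (mS .T .T k - nTT k) * (u .St) ^ 2 + 2 * (mS .L .S k - nLS k) * (u .L) * (u .S + u .Sv / 2) +
      2 * (mS .T .S k - nTS k) * (u .St) * (u .S + u .Sv / 2) + (alphaK k - σ * gK k) * (u .S + u .Sv / 2) ^ 2 +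
      2 * (betaK k + σ * (wK k * gK k)) * (u .S + u .Sv / 2) * (u .Svv + u .Sv / 2) +
      (gamK k - σ * (wK k ^ 2 * gK k)) * (u .Svv + u .Sv / 2) ^ 2 := by
    intro k u σ
    simp only [sum_kind, hqs, hqc, NUStabT.ext, om, bk, QS, QC, List.map_cons, List.map_nil,
      List.sum_cons, List.sum_nil]
    ring
  refine stab s a sp t m core (δ := 0)
    (Ns := fun b d x => RsK b d x - FK qs b d x)
    (Nc := fun b d x => RcK b d x - FK qc b d x)
    (qs := qs) (qc := qc) ?_ hcore le_rfl (by linarith) hε ?_ ?_ ?_ ?_ ?_ ?_ ?_ ?_ ?_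
  · intro i hi' j hj hij
    refine le_trans (le_of_eq ?_) (hm i hi' j hj hij)
    split_ifs <;> ring
  · intro b d x
    rw [hs]
    have := same4_ge C hi b d x 0 (C.LL.2 x) (C.LT.2 x) (C.TT.2 x) (C.LS.2 x) (C.LV.2 x)
      (C.TS.2 x) (C.TV.2 x) (C.N.2 x)
    linarith
  · intro b d x hx
    rw [hs]
    have := same4_ge C hi b d x c0 (C.LL1 x hx) (C.LT1 x hx) (C.TT1 x hx) (C.LS1 x hx)
      (C.LV1 x hx) (C.TS1 x hx) (C.TV1 x hx) (C.N1 x hx)
    linarith
  · intro b d x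
    rw [hc]
    have := cross4_ge C b d x
    linarith
  · intro k _ b d
    simp only [hqc]
    cases b <;> cases d <;> simp only [NUStabT.ext, om, bk, QC, List.map_cons, List.map_nil,
      List.sum_cons, List.sum_nil] <;> ring
  · intro k hk u
    have h1 := hform k u 1
    simp only [one_mul] at h1
    rw [h1]
    exact C.form k hk _ _ _ _
  · intro k hk u
    have h1 := hform k u (-1)
    have h2 := C.form k hk (u .L) (u .St) (u .S + u .Sv / 2) (u .Svv + u .Sv / 2)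
    have h3 := gK_nonneg hk
    have h4 : 0 ≤ 2 * (gK k * ((u .S + u .Sv / 2) - wK k * (u .Svv + u .Sv / 2)) ^ 2) := by
      positivity
    have h5 : ∀ b d, qs b d k - qc b d k = qs b d k + (-1) * qc b d k := fun b d => by ring
    simp_rw [h5]
    rw [h1]
    nlinarith
  · intro b d
    exact int_ext (int_QS C hi) b d
  · intro b d
    exact int_ext int_QC b d
  · intro b
    refine le_trans (le_abs_self _) ?_
    exact Finset.single_le_sum (f := fun b => |FK qs b b 0|) (fun _ _ => abs_nonneg _)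
      (Finset.mem_univ b)

/-- `stab_obj` from any table -/
theorem stab_obj_of {sX sY τ : Kind → ℝ → ℝ} (R : Resp sX sY τ) {c0 Bk : ℝ} (hc0 : 0 ≤ c0)
    (hBk : 0 ≤ Bk) (H : KB c0 Bk) :
    ∃ C1 : ℝ, 0 ≤ C1 ∧ ∀ (P : Par) (r : ℕ), P.e = 1 / 4 → P.jL = 9 / 4 → NUDirP.Small 8 P r →
      ∀ O : Fin r → Xo, (∀ i j, i ≠ j → 0 < pairN P O i j) →
      c0 / 4 * W2 Finset.univ (fun i => ⌊ht (O i)⌋) - C1 * r -
        (4 * NUDirP.nk O .S * Real.log (r * (2 + 2 / (2 ^ 8 * (P.d r * NUP1.l / r)))) +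
          4 * NUDirP.nk O .Sv * (1 + Real.log r)) - C1 * P.d r * (r : ℝ) ^ 2 ≤
      ∑ i, ∑ j ∈ Finset.univ.erase i, (-Real.log (pairN P O i j) -
        ER sX sY τ (sp (O i) == sp (O j)) (kd (O i)) (kd (O j)) (ht (O i)) (ht (O j))) := by
  obtain ⟨M, hM1, hM2⟩ : ∃ M : ℝ, c0 + Bk ≤ M ∧ 1800 * 2 ^ 8 ≤ M :=
    ⟨max (c0 + Bk) (1800 * 2 ^ 8), le_max_left _ _, le_max_right _ _⟩
  refine ⟨M, le_trans (by positivity) hM1, ?_⟩
  intro P r he hj hS O hpos
  have hd := hS.d0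
  have h := H (Finset.univ : Finset (Fin r)) (fun i => kd (O i)) (fun i => sp (O i))
    (fun i => ht (O i)) (fun i j => -Real.log (pairN P O i j) -
      ER sX sY τ (sp (O i) == sp (O j)) (kd (O i)) (kd (O j)) (ht (O i)) (ht (O j)))
    (fun i j => NUDirP.coreP 8 P O i j) (ε := 1800 * 2 ^ 8 * P.d r) (by positivity) ?_
    (NUDirP.core_sum hS O)
  · refine le_trans ?_ h
    rw [Finset.card_univ, Fintype.card_fin]
    have h1 : (c0 + Bk) * (r : ℝ) ≤ M * r := mul_le_mul_of_nonneg_right hM1 (Nat.cast_nonneg r)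
    have h2 : 1800 * 2 ^ 8 * P.d r * (r : ℝ) ^ 2 ≤ M * P.d r * (r : ℝ) ^ 2 := by gcongr
    refine sub_le_sub (sub_le_sub_right (sub_le_sub_left h1 _) _) h2
  · intro i _ j _ hij
    have h1 := NUDirP.dir_ge (K := 8) (by norm_num) NUDirP.good_2_18 (P := P) (by rw [he]; norm_num)
      (by rw [hj]; norm_num) hS O hij (hpos i j hij)
    rw [Rdir_eq_Dr_std] at h1
    have h2 := pair_RK R (sp (O i) == sp (O j)) (kd (O i)) (kd (O j)) (ht (O i)) (ht (O j))
    have h3 : (if sp (O i) = sp (O j) then RsK (kd (O i)) (kd (O j)) (ht (O i) - ht (O j))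
        else RcK (kd (O i)) (kd (O j)) (ht (O i) - ht (O j))) =
        if (sp (O i) == sp (O j)) = true then RsK (kd (O i)) (kd (O j)) (ht (O i) - ht (O j))
        else RcK (kd (O i)) (kd (O j)) (ht (O i) - ht (O j)) := by
      by_cases hs : sp (O i) = sp (O j)
      · simp [hs]
      · simp [hs]
    rw [h3, ← h2]
    linarith

/-- **the stability bound for objects in exact positions, design D1** -/
theorem stab_obj4 {sX sY τ : Kind → ℝ → ℝ} (R : Resp sX sY τ) (C : Certs4 c0 nLL nTT nLS nTS)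
    (hc0 : 0 ≤ c0) :
    ∃ C1 : ℝ, 0 ≤ C1 ∧ ∀ (P : Par) (r : ℕ), P.e = 1 / 4 → P.jL = 9 / 4 → NUDirP.Small 8 P r →
      ∀ O : Fin r → Xo, (∀ i j, i ≠ j → 0 < pairN P O i j) →
      c0 / 4 * W2 Finset.univ (fun i => ⌊ht (O i)⌋) - C1 * r -
        (4 * NUDirP.nk O .S * Real.log (r * (2 + 2 / (2 ^ 8 * (P.d r * NUP1.l / r)))) +
          4 * NUDirP.nk O .Sv * (1 + Real.log r)) - C1 * P.d r * (r : ℝ) ^ 2 ≤
      ∑ i, ∑ j ∈ Finset.univ.erase i, (-Real.log (pairN P O i j) -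
        ER sX sY τ (sp (O i) == sp (O j)) (kd (O i)) (kd (O j)) (ht (O i)) (ht (O j))) := by
  obtain ⟨Bk, hBk, H⟩ := stab_kinds4 C (int_mS R) hc0
  exact stab_obj_of R hc0 hBk H

end

end Pool.Agent.NUM3
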